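import Pool.Agent.H4.GEN.LemC3
import Pool.Agent.H80.BFL.REM

/-!
# LEMMA C, event form

`rem_all`: Remez inequality in the time for all members of a family of polynomials at once.
`conc_ev`: from labels at several radii and one window (polynomials of the point and of the line)
to the new pair of labels, off a small event.
-/

set_option autoImplicit false

namespace Pool.GEN.LemC

open Finset MvPolynomial
open Pool.Agent.H49.Ent Pool.Agent.H32.Dense Pool.STK Pool.BFL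

/-! ### Events -/

theorem pb_mono {Ω : Type} [Fintype Ω] {q : Ω → ℝ} (hq : ∀ w, 0 ≤ q w) {A B : Ω → Prop}
    (h : ∀ w, A w → B w) : Pb q A ≤ Pb q B := by
  classical
  unfold Pb
  refine Finset.sum_le_sum fun w _ => ?_
  by_cases hA : A w
  · rw [if_pos hA, if_pos (h w hA)]
  · rw [if_neg hA]
    split_ifs
    · exact hq w
    · exact le_rfl

theorem pb_or {Ω : Type} [Fintype Ω] {q : Ω → ℝ} (hq : ∀ w, 0 ≤ q w) (A B : Ω → Prop) :
    Pb q (fun w => A w ∨ B w) ≤ Pb q A + Pb q B := by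
  classical
  unfold Pb
  rw [← Finset.sum_add_distrib]
  refine Finset.sum_le_sum fun w _ => ?_
  have h0 := hq w
  by_cases hA : A w
  · rw [if_pos (Or.inl hA), if_pos hA]
    split_ifs
    · linarith
    · linarith
  · by_cases hB : B w
    · rw [if_pos (Or.inr hB), if_neg hA, if_pos hB, zero_add]
    · rw [if_neg (by rintro (h | h); exacts [hA h, hB h]), if_neg hA, if_neg hB, zero_add]

/-! ### Polynomials of one variable -/

/-- Growth outside of the interval. -/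
theorem grow (D : ℕ) : ∃ C : ℝ, 1 ≤ C ∧ ∀ (q : Polynomial ℝ) (M : ℝ), q.natDegree ≤ D →
    (∀ t : ℝ, 0 ≤ t → t ≤ 1 → |q.eval t| ≤ M) → ∀ t : ℝ, -1 ≤ t → t ≤ 2 →
      |q.eval t| ≤ C * M := by
  obtain ⟨C, hC, hc⟩ := Pool.KAL.TAY.coef_bound D
  refine ⟨((D + 1 : ℕ) : ℝ) * ((C + 1) * 2 ^ D), ?_, fun q M hq h t h1 h2 => ?_⟩
  · have e1 : (1 : ℝ) ≤ ((D + 1 : ℕ) : ℝ) := by exact_mod_cast Nat.le_add_left 1 D
    have e2 : (1 : ℝ) ≤ 2 ^ D := one_le_pow₀ (by norm_num)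
    have e3 : (1 : ℝ) ≤ (C + 1) * 2 ^ D := by nlinarith
    nlinarith
  · have hM : 0 ≤ M := (abs_nonneg _).trans (h 0 le_rfl zero_le_one)
    rw [Polynomial.eval_eq_sum_range' (Nat.lt_succ_of_le hq)]
    refine (Finset.abs_sum_le_sum_abs _ _).trans ?_
    have h3 : ∀ i ∈ range (D + 1), |q.coeff i * t ^ i| ≤ (C + 1) * 2 ^ D * M := by
      intro i hi
      have hiD : i ≤ D := Nat.lt_succ_iff.1 (Finset.mem_range.1 hi)
      rw [abs_mul, abs_pow]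
      have h4 : |t| ≤ 2 := abs_le.2 ⟨by linarith, h2⟩
      have h5 : |t| ^ i ≤ 2 ^ D := (pow_le_pow_left₀ (abs_nonneg _) h4 i).trans
        (pow_le_pow_right₀ (by norm_num) hiD)
      have h6 : |q.coeff i| ≤ (C + 1) * M :=
        (hc q M hq h i hiD).trans (mul_le_mul_of_nonneg_right (by linarith) hM)
      calc |q.coeff i| * |t| ^ i ≤ (C + 1) * M * 2 ^ D :=
            mul_le_mul h6 h5 (pow_nonneg (abs_nonneg _) _) (mul_nonneg (by linarith) hM)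
        _ = _ := by ring
    refine (Finset.sum_le_sum h3).trans ?_
    rw [Finset.sum_const, card_range, nsmul_eq_mul]
    exact le_of_eq (by ring)

/-- **Remez inequality in the time for a family of polynomials at once.** -/
theorem rem_all (D : ℕ) : ∃ C : ℝ, 1 ≤ C ∧ ∀ (Ω S' A : Type) [Fintype Ω] (p : Ω → ℝ) (N : ℕ)
    (T : Ω → ℕ) (s : Ω → S') (q : S' → A → Polynomial ℝ) (S₀ : S' → A → ℝ) (Gd : Ω → Prop)
    (θ η : ℝ), IsLaw p → (∀ ω, T ω < N) → (∀ x a, (q x a).natDegree ≤ D) → 0 ≤ θ → 0 < η →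
    η ≤ 1 → Real.log N - θ ≤ CH p T s → Pb p (fun ω => ¬ Gd ω) ≤ η / 4 → (∀ x a, 0 < S₀ x a) →
    C * (θ + 1) / η ≤ Real.log N →
    (∀ ω, Gd ω → ∀ a, |(q (s ω) a).eval ((T ω : ℝ) / N)| ≤ S₀ (s ω) a) →
    Pb p (fun ω => ¬ ∀ a, ∀ t ∈ Set.Icc (0 : ℝ) 1,
      |(q (s ω) a).eval t| ≤ Real.exp (C * (θ + 1) / η) * S₀ (s ω) a) ≤ η := by
  classical
  obtain ⟨C, hC, hrem⟩ := Pool.BFL.Rem.rem_thm D
  refine ⟨C, hC, ?_⟩
  intro Ω S' A _ p N T s q S₀ Gd θ η hp hT hq hθ hη hη1 hCH hGd hS₀ hN hG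
  obtain ⟨E, hE⟩ : ∃ E : ℝ, E = Real.exp (C * (θ + 1) / η) := ⟨_, rfl⟩
  obtain ⟨V, hV⟩ : ∃ V : S' → A → Prop, V = fun x a =>
      ¬ ∀ t ∈ Set.Icc (0 : ℝ) 1, |(q x a).eval t| ≤ E * S₀ x a := ⟨_, rfl⟩
  have hch : ∀ x : S', ∃ r : Polynomial ℝ × ℝ, r.1.natDegree ≤ D ∧ 0 < r.2 ∧
      (∀ ω, s ω = x → Gd ω → |r.1.eval ((T ω : ℝ) / N)| ≤ r.2) ∧
      ((∃ a, V x a) → ¬ ∀ t ∈ Set.Icc (0 : ℝ) 1, |r.1.eval t| ≤ E * r.2) := by
    intro x
    by_cases h : ∃ a, V x a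
    · obtain ⟨a, ha⟩ := h
      refine ⟨(q x a, S₀ x a), hq x a, hS₀ x a, fun ω hω hg => ?_, fun _ => ?_⟩
      · have := hG ω hg a
        rw [hω] at this
        exact this
      · rw [hV] at ha
        exact ha
    · refine ⟨(0, 1), by rw [Polynomial.natDegree_zero]; exact Nat.zero_le _, one_pos,
        fun ω _ _ => ?_, fun h' => absurd h' h⟩
      rw [Polynomial.eval_zero, abs_zero]
      exact zero_le_one
  choose r hr1 hr2 hr3 hr4 using hch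
  have key := hrem Ω S' p N T s (fun x => (r x).1) Gd (fun x => (r x).2) θ η hp hT hr1 hθ hη hη1
    hCH hGd hr2 hN (fun ω hω => hr3 (s ω) ω rfl hω)
  rw [← hE] at key ⊢
  refine le_trans (pb_mono hp.nonneg fun ω hω => ?_) key
  refine hr4 (s ω) ?_
  by_contra h
  apply hω
  intro a
  by_contra h'
  exact h ⟨a, by rw [hV]; exact h'⟩

variable {σ : Type} [Fintype σ]

/-- The degree of a restriction to a line. -/
theorem natDegree_aeval {K : ℕ} {f : σ → Polynomial ℝ} (hf : ∀ i, (f i).natDegree ≤ 1)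
    {P : MvPolynomial σ ℝ} (hP : P.totalDegree ≤ K) : (aeval f P).natDegree ≤ K := by
  rw [MvPolynomial.aeval_def, MvPolynomial.eval₂_eq']
  refine Polynomial.natDegree_sum_le_of_forall_le _ _ fun d hd => ?_
  refine Polynomial.natDegree_mul_le.trans ?_
  have h0 : (algebraMap ℝ (Polynomial ℝ) (P.coeff d)).natDegree = 0 := Polynomial.natDegree_C _
  rw [h0, zero_add]
  refine (Polynomial.natDegree_prod_le _ _).trans ?_
  have h1 : ∑ j, d j ≤ K := by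
    have h2 := le_totalDegree hd
    rw [Finsupp.sum_fintype _ _ (fun _ => rfl)] at h2
    exact h2.trans hP
  refine le_trans (Finset.sum_le_sum fun i _ => ?_) h1
  refine Polynomial.natDegree_pow_le.trans ?_
  calc d i * (f i).natDegree ≤ d i * 1 := Nat.mul_le_mul_left _ (hf i)
    _ = d i := Nat.mul_one _

theorem eval_aeval_poly (f : σ → Polynomial ℝ) (P : MvPolynomial σ ℝ) (t : ℝ) :
    (aeval f P).eval t = eval (fun i => (f i).eval t) P := by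
  rw [MvPolynomial.aeval_def, MvPolynomial.eval₂_eq', Polynomial.eval_finsetSum,
    MvPolynomial.eval_eq']
  refine Finset.sum_congr rfl fun d _ => ?_
  rw [Polynomial.eval_mul, Polynomial.eval_prod]
  congr 1
  · exact Polynomial.eval_C
  · exact Finset.prod_congr rfl fun i _ => Polynomial.eval_pow _

/-- **LEMMA C, event form.** `y` is the datum of the point, `s` the one of the line and of the
window `[t0, t0 + h]`, `T / N` the relative time. -/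
theorem conc_ev [DecidableEq σ] (K L W k : ℕ) : ∃ C : ℝ, 1 ≤ C ∧
    ∀ (Ω S' Y : Type) [Fintype Ω] (p : Ω → ℝ) (N : ℕ) (T : Ω → ℕ) (s : Ω → S') (y : Ω → Y)
    (Gd : Ω → Prop) (θt η : ℝ) (wt : σ → ℕ) (i₁ : σ) (φ φ' : Y → σ → MvPolynomial σ ℝ)
    (ψ ψ' : S' → σ → MvPolynomial σ ℝ) (G0 GM : Y → MvPolynomial σ ℝ)
    (H : ℕ → S' → MvPolynomial σ ℝ) (M : ℕ) (ρ ρ' : σ → ℝ) (t0 : S' → ℝ)
    (h δ0 δM B τ τ' : ℝ) (δ τs : ℕ → ℝ),
    IsLaw p → (∀ ω, T ω < N) → 0 ≤ θt → 0 < η → η ≤ 1 → Real.log N - θt ≤ CH p T s →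
    Pb p (fun ω => ¬ Gd ω) ≤ η / 4 → C * (θt + 1) / η ≤ Real.log N →
    (∀ j, wt j ≤ W) → (∀ a i, (φ a i).totalDegree ≤ L) → (∀ x i, (ψ x i).totalDegree ≤ L) →
    (∀ x i, (ψ' x i).totalDegree ≤ L) → (∀ a, (G0 a).totalDegree ≤ K) →
    (∀ a, (GM a).totalDegree ≤ K) → (∀ r, r ≤ M → ∀ x, (H r x).totalDegree ≤ K) →
    (∀ a i, aeval (φ a) (φ' a i) = X i) → (∀ x i, aeval (ψ' x) (ψ x i) = X i) →
    0 < h → (∀ r, 0 < δ r) →
    (∀ ω, Gd ω → ∀ v : σ → ℝ, (∀ j, |v j| ≤ ρ j) →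
      |eval (fun i => eval v (φ (y ω) i)) (G0 (y ω)) -
        eval (fun i => eval v (φ (y ω) i)) (H 0 (s ω))| ≤ δ0) →
    (∀ ω, Gd ω → ∀ v : σ → ℝ, (∀ j, |v j| ≤ ρ j * τ ^ (wt j)) →
      |eval (fun i => eval v (φ (y ω) i)) (GM (y ω)) -
        eval (fun i => eval v (φ (y ω) i)) (H M (s ω))| ≤ δM) →
    (∀ ω, Gd ω → ∀ r, r < M → ∀ u : σ → ℝ, u i₁ = t0 (s ω) + h * ((T ω : ℝ) / N) →
      (∀ j, j ≠ i₁ → |u j| ≤ ρ' j * τs r ^ (wt j)) →
      |eval (fun i => eval u (ψ (s ω) i)) (H (r + 1) (s ω)) -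
        eval (fun i => eval u (ψ (s ω) i)) (H r (s ω))| ≤ δ r) →
    (∀ ω, Gd ω → ∀ v : σ → ℝ, (∀ j, |v j| ≤ ρ j) →
      |eval (fun i => eval v (φ (y ω) i)) (ψ' (s ω) i₁) -
        (t0 (s ω) + h * ((T ω : ℝ) / N))| ≤ h ∧
      ∀ j, j ≠ i₁ → |eval (fun i => eval v (φ (y ω) i)) (ψ' (s ω) j)| ≤ ρ' j * B ^ (wt j)) →
    (∀ ω, Gd ω → ∀ v : σ → ℝ, (∀ j, |v j| ≤ ρ j * τ' ^ (wt j)) → ∀ j, j ≠ i₁ →
      |eval (fun i => eval v (φ (y ω) i)) (ψ' (s ω) j)| ≤ ρ' j * (B * τ') ^ (wt j)) →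
    0 < B → 0 < τ' → τ' ≤ τ → (∀ r, r < M → B * τ' ≤ τs r ∧ τs r ≤ B) →
    Pb p (fun ω => ¬ (Gd ω ∧ ∀ θ : ℝ, τ ≤ θ → θ ≤ 1 → ∀ v : σ → ℝ,
      (∀ j, |v j| ≤ ρ j * θ ^ (wt j)) →
      |eval (fun i => eval v (φ (y ω) i)) (lab wt k (φ (y ω)) (φ' (y ω)) (G0 (y ω)) (GM (y ω))) -
        eval (fun i => eval v (φ (y ω) i)) (lab (Function.update wt i₁ 0) k (ψ (s ω)) (ψ' (s ω))
          (H 0 (s ω)) (H M (s ω)))| ≤
      C * (δ0 * θ ^ (k + 1) + δM * (θ / τ) ^ k + Real.exp (C * (θt + 1) / η) *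
        (θ ^ (k + 1) * ∑ r ∈ range M, δ r * (B / τs r) ^ k +
        (θ / τ') ^ k * ∑ r ∈ range M, δ r * (B * τ' / τs r) ^ (k + 1))))) ≤ 2 * η := by
  classical
  obtain ⟨C₁, hC₁, hrem⟩ := rem_all (K * L)
  obtain ⟨C₂, hC₂, hgrow⟩ := grow (K * L)
  obtain ⟨C₃, hC₃, hmm⟩ := lemC_mm (σ := σ) K L W k
  refine ⟨C₁ + C₃ * C₂, by nlinarith [mul_pos hC₃ (lt_of_lt_of_le one_pos hC₂)], ?_⟩
  intro Ω S' Y _ p N T s y Gd θt η wt i₁ φ φ' ψ ψ' G0 GM H M ρ ρ' t0 h δ0 δM B τ τ' δ τs hp hT hθt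
    hη hη1 hCH hGd hN hW hφ hψ hψ' hG0 hGM hH hinv hinv' hh hδ h0 hM hstep hbox hbox' hB hτ'0 hτ'τ
    hτs
  have hCC : 0 ≤ C₃ * C₂ := (mul_pos hC₃ (lt_of_lt_of_le one_pos hC₂)).le
  have hτ0 : 0 < τ := lt_of_lt_of_le hτ'0 hτ'τ
  have hθη : 0 ≤ (θt + 1) / η := div_nonneg (by linarith) hη.le
  obtain ⟨E₁, hE₁⟩ : ∃ E₁ : ℝ, E₁ = Real.exp (C₁ * (θt + 1) / η) := ⟨_, rfl⟩
  obtain ⟨E, hE⟩ : ∃ E : ℝ, E = Real.exp ((C₁ + C₃ * C₂) * (θt + 1) / η) := ⟨_, rfl⟩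
  have hEE : E₁ ≤ E := by
    rw [hE₁, hE, Real.exp_le_exp, mul_div_assoc, mul_div_assoc]
    exact mul_le_mul_of_nonneg_right (by linarith) hθη
  have hE₁0 : 0 < E₁ := by rw [hE₁]; exact Real.exp_pos _
  -- the restrictions of the differences to the lines in the charts
  obtain ⟨f, hf⟩ : ∃ f : S' → (σ → ℝ) → σ → Polynomial ℝ, f = fun x u j =>
      if j = i₁ then Polynomial.C (t0 x) + Polynomial.C h * Polynomial.X
      else Polynomial.C (u j) := ⟨_, rfl⟩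
  have hfd : ∀ x u j, (f x u j).natDegree ≤ 1 := by
    intro x u j
    rw [hf]
    simp only
    split_ifs
    · refine (Polynomial.natDegree_add_le _ _).trans (max_le ?_ ?_)
      · rw [Polynomial.natDegree_C]; exact Nat.zero_le _
      · exact (Polynomial.natDegree_C_mul_le _ _).trans Polynomial.natDegree_X_le
    · rw [Polynomial.natDegree_C]; exact Nat.zero_le _
  have hfe : ∀ x u t, (fun j => (f x u j).eval t) =
      fun j => if j = i₁ then t0 x + h * t else u j := by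
    intro x u t
    funext j
    rw [hf]
    simp only
    split_ifs
    · rw [Polynomial.eval_add, Polynomial.eval_mul, Polynomial.eval_C, Polynomial.eval_C,
        Polynomial.eval_X]
    · rw [Polynomial.eval_C]
  obtain ⟨q, hq⟩ : ∃ q : S' → {a : ℕ × (σ → ℝ) // a.1 < M ∧ ∀ j, j ≠ i₁ →
      |a.2 j| ≤ ρ' j * τs a.1 ^ (wt j)} → Polynomial ℝ, q = fun x a =>
      aeval (f x a.1.2) (aeval (ψ x) (H (a.1.1 + 1) x - H a.1.1 x)) := ⟨_, rfl⟩
  have hqd : ∀ x a, (q x a).natDegree ≤ K * L := by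
    intro x a
    rw [hq]
    exact natDegree_aeval (hfd x _) (totalDegree_aeval (hψ x)
      ((totalDegree_sub _ _).trans (max_le (hH _ a.2.1 x) (hH _ a.2.1.le x))))
  have hqe : ∀ x a t, (q x a).eval t =
      eval (fun i => eval (fun j => if j = i₁ then t0 x + h * t else a.1.2 j) (ψ x i))
        (H (a.1.1 + 1) x) -
      eval (fun i => eval (fun j => if j = i₁ then t0 x + h * t else a.1.2 j) (ψ x i))
        (H a.1.1 x) := by
    intro x a t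
    rw [hq]
    simp only
    rw [eval_aeval_poly, hfe, eval_aeval, map_sub]
  have hN₁ : C₁ * (θt + 1) / η ≤ Real.log N := by
    refine le_trans ?_ hN
    rw [mul_div_assoc, mul_div_assoc]
    exact mul_le_mul_of_nonneg_right (by linarith) hθη
  have hbad := hrem Ω S' _ p N T s q (fun _ a => δ a.1.1) Gd θt η hp hT hqd hθt hη hη1 hCH hGd
    (fun _ a => hδ _) hN₁ (fun ω hω a => by
      rw [hqe]
      refine hstep ω hω a.1.1 a.2.1 _ (if_pos rfl) fun j hj => ?_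
      rw [if_neg hj]
      exact a.2.2 j hj)
  rw [← hE₁] at hbad
  refine le_trans (pb_mono hp.nonneg (B := fun ω => (¬ Gd ω) ∨ ¬ ∀ a,
    ∀ t ∈ Set.Icc (0 : ℝ) 1, |(q (s ω) a).eval t| ≤ E₁ * δ a.1.1) fun ω hω => ?_)
    ((pb_or hp.nonneg _ _).trans (by linarith))
  by_contra hcon
  rw [not_or, not_not, not_not] at hcon
  obtain ⟨hg, hall⟩ := hcon
  apply hω
  refine ⟨hg, fun θ hτθ hθ v hv => ?_⟩
  have hθ0 : 0 < θ := lt_of_lt_of_le hτ0 hτθ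
  have hρ : ∀ j, 0 ≤ ρ j := by
    intro j
    have h1 : 0 ≤ ρ j * θ ^ (wt j) := (abs_nonneg _).trans (hv j)
    exact nonneg_of_mul_nonneg_left h1 (pow_pos hθ0 _)
  have hδ0 : 0 ≤ δ0 := (abs_nonneg _).trans (h0 ω hg 0 fun j => by
    rw [Pi.zero_apply, abs_zero]; exact hρ j)
  have hδM : 0 ≤ δM := (abs_nonneg _).trans (hM ω hg 0 fun j => by
    rw [Pi.zero_apply, abs_zero]; exact mul_nonneg (hρ j) (pow_pos hτ0 _).le)
  have hτs0 : ∀ r, r < M → 0 < τs r := fun r hr =>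
    lt_of_lt_of_le (mul_pos hB hτ'0) (hτs r hr).1
  have hτ'1 : τ' ≤ 1 := (hτ'τ.trans hτθ).trans hθ
  have hb' : ∀ v : σ → ℝ, (∀ j, |v j| ≤ ρ j * τ' ^ (wt j)) → ∀ j, |v j| ≤ ρ j := fun u hu j =>
    (hu j).trans (mul_le_of_le_one_right (hρ j) (pow_le_one₀ hτ'0.le hτ'1))
  have key := hmm wt i₁ (φ (y ω)) (φ' (y ω)) (ψ (s ω)) (ψ' (s ω)) (G0 (y ω)) (GM (y ω))
    (fun r => H r (s ω)) M ρ ρ' {t | |t - (t0 (s ω) + h * ((T ω : ℝ) / N))| ≤ h} δ0 δM B θ τ τ'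
    (fun r => C₂ * (E₁ * δ r)) τs hW (hφ _) (hψ _) (hψ' _) (hG0 _) (hGM _)
    (fun r hr => hH r hr _) (hinv _) (hinv' _) (h0 ω hg) (hM ω hg)
    (fun r hr u hu1 hu => ?_) (hbox ω hg)
    (fun u hu => ⟨(hbox ω hg u (hb' u hu)).1, hbox' ω hg u hu⟩) hB hτ'0 (hτ'τ.trans hτθ) hτ0 hτθ
    hθ hτs v hv
  · refine key.trans ?_
    have hB' : 0 ≤ B := hB.le
    obtain ⟨X₁, hX₁⟩ : ∃ X₁ : ℝ, X₁ = θ ^ (k + 1) * ∑ r ∈ range M, δ r * (B / τs r) ^ k +
      (θ / τ') ^ k * ∑ r ∈ range M, δ r * (B * τ' / τs r) ^ (k + 1) := ⟨_, rfl⟩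
    have hX0 : 0 ≤ X₁ := by
      rw [hX₁]
      refine add_nonneg (mul_nonneg (pow_pos hθ0 _).le (Finset.sum_nonneg fun r hr => ?_))
        (mul_nonneg (pow_pos (div_pos hθ0 hτ'0) _).le (Finset.sum_nonneg fun r hr => ?_))
      · exact mul_nonneg (hδ r).le
          (pow_pos (div_pos hB (hτs0 r (Finset.mem_range.1 hr))) _).le
      · exact mul_nonneg (hδ r).le
          (pow_pos (div_pos (mul_pos hB hτ'0) (hτs0 r (Finset.mem_range.1 hr))) _).le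
    have e1 : θ ^ (k + 1) * ∑ r ∈ range M, C₂ * (E₁ * δ r) * (B / τs r) ^ k +
        (θ / τ') ^ k * ∑ r ∈ range M, C₂ * (E₁ * δ r) * (B * τ' / τs r) ^ (k + 1) =
        C₂ * E₁ * X₁ := by
      rw [hX₁, mul_add, Finset.mul_sum, Finset.mul_sum, Finset.mul_sum, Finset.mul_sum,
        Finset.mul_sum, Finset.mul_sum]
      congr 1
      · exact Finset.sum_congr rfl fun r _ => by ring
      · exact Finset.sum_congr rfl fun r _ => by ring
    rw [add_assoc (δ0 * θ ^ (k + 1) + δM * (θ / τ) ^ k), e1, ← hX₁, ← hE]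
    have t1 : 0 ≤ δ0 * θ ^ (k + 1) := mul_nonneg hδ0 (pow_pos hθ0 _).le
    have t2 : 0 ≤ δM * (θ / τ) ^ k := mul_nonneg hδM (pow_pos (div_pos hθ0 hτ0) _).le
    have t3 : E₁ * X₁ ≤ E * X₁ := mul_le_mul_of_nonneg_right hEE hX0
    have t4 : 0 ≤ E₁ * X₁ := mul_nonneg hE₁0.le hX0
    have t5 : C₃ ≤ C₃ * C₂ := le_mul_of_one_le_right hC₃.le hC₂
    calc C₃ * (δ0 * θ ^ (k + 1) + δM * (θ / τ) ^ k + C₂ * E₁ * X₁) =
          C₃ * (δ0 * θ ^ (k + 1) + δM * (θ / τ) ^ k) + C₃ * C₂ * (E₁ * X₁) := by ring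
      _ ≤ C₃ * C₂ * (δ0 * θ ^ (k + 1) + δM * (θ / τ) ^ k) + C₃ * C₂ * (E * X₁) :=
          add_le_add (mul_le_mul_of_nonneg_right t5 (add_nonneg t1 t2))
            (mul_le_mul_of_nonneg_left t3 hCC)
      _ = C₃ * C₂ * (δ0 * θ ^ (k + 1) + δM * (θ / τ) ^ k + E * X₁) := by ring
      _ ≤ (C₁ + C₃ * C₂) * (δ0 * θ ^ (k + 1) + δM * (θ / τ) ^ k + E * X₁) :=
          mul_le_mul_of_nonneg_right (by linarith)
            (add_nonneg (add_nonneg t1 t2) (t4.trans t3))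
  · -- the tube over the enlarged window
    have hu1' : |u i₁ - (t0 (s ω) + h * ((T ω : ℝ) / N))| ≤ h := hu1
    have hτ1 := hτs0 r hr
    obtain ⟨t, ht⟩ : ∃ t : ℝ, t = (u i₁ - t0 (s ω)) / h := ⟨_, rfl⟩
    have hut : u i₁ = t0 (s ω) + h * t := by
      rw [ht, mul_div_cancel₀ _ hh.ne']
      ring
    have hTN : (0 : ℝ) ≤ (T ω : ℝ) / N ∧ (T ω : ℝ) / N ≤ 1 := by
      have h1 := hT ω
      have h2 : (0 : ℝ) < N := by
        have : 0 < N := lt_of_le_of_lt (Nat.zero_le _) h1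
        exact_mod_cast this
      refine ⟨by positivity, ?_⟩
      rw [div_le_one h2]
      exact_mod_cast h1.le
    have ht' : |t - (T ω : ℝ) / N| ≤ 1 := by
      have e1 : u i₁ - (t0 (s ω) + h * ((T ω : ℝ) / N)) = h * (t - (T ω : ℝ) / N) := by
        rw [hut]
        ring
      rw [e1, abs_mul, abs_of_pos hh] at hu1'
      have := (mul_le_iff_le_one_right hh).1 hu1'
      exact this
    rw [abs_le] at ht'
    have hg2 := hgrow (q (s ω) ⟨(r, u), hr, hu⟩) (E₁ * δ r) (hqd _ _)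
      (fun t' h1 h2 => hall ⟨(r, u), hr, hu⟩ t' ⟨h1, h2⟩) t (by linarith [ht'.1, hTN.1])
      (by linarith [ht'.2, hTN.2])
    rw [hqe] at hg2
    have e2 : (fun j => if j = i₁ then t0 (s ω) + h * t else u j) = u := by
      funext j
      split_ifs with hj
      · rw [hj, hut]
      · rfl
    simp only [e2] at hg2
    exact hg2

end Pool.GEN.LemC
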