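import Pool.Agent.H20.KAL.TAY

/-!
# LEMMA C (concavity of the levels), the algebra of the labels

`tr w k P` is the part of weight at most `k` of the polynomial `P` for the weights `w`.
`lab` is the new label: `lab wt k φ φ' G0 GM` is the one of the point (chart `φ`, all the weights)
and `lab (update wt i₁ 0) k ψ ψ' H0 HM` is the one of the line (chart `ψ`, the time has weight
zero). `lemC_alg` is the bound of their difference in natural coordinates, `lemC_iso` is the case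
of linear coordinates with all the weights equal to one, `lab_near` lets the centre of the chart
move.
-/

set_option autoImplicit false

namespace Pool.GEN.LemC

open Finset MvPolynomial

variable {σ : Type} [Fintype σ]

/-! ### Weighted truncation -/

/-- The part of weight at most `k`. -/
noncomputable def tr (w : σ → ℕ) (k : ℕ) (P : MvPolynomial σ ℝ) : MvPolynomial σ ℝ :=
  ∑ i ∈ range (k + 1), weightedHomogeneousComponent w i P

omit [Fintype σ] in
theorem tr_add (w : σ → ℕ) (k : ℕ) (P Q : MvPolynomial σ ℝ) :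
    tr w k (P + Q) = tr w k P + tr w k Q := by
  unfold tr
  rw [← Finset.sum_add_distrib]
  exact Finset.sum_congr rfl fun i _ => map_add _ _ _

omit [Fintype σ] in
theorem tr_sub (w : σ → ℕ) (k : ℕ) (P Q : MvPolynomial σ ℝ) :
    tr w k (P - Q) = tr w k P - tr w k Q := by
  unfold tr
  rw [← Finset.sum_sub_distrib]
  exact Finset.sum_congr rfl fun i _ => map_sub _ _ _

omit [Fintype σ] in
theorem tr_sum {ι : Type} (w : σ → ℕ) (k : ℕ) (s : Finset ι)
    (P : ι → MvPolynomial σ ℝ) : tr w k (∑ i ∈ s, P i) = ∑ i ∈ s, tr w k (P i) := by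
  unfold tr
  rw [Finset.sum_comm]
  exact Finset.sum_congr rfl fun i _ => map_sum _ _ _

omit [Fintype σ] in
open Classical in
theorem coeff_tr (w : σ → ℕ) (k : ℕ) (P : MvPolynomial σ ℝ) (d : σ →₀ ℕ) :
    (tr w k P).coeff d = if Finsupp.weight w d ≤ k then P.coeff d else 0 := by
  unfold tr
  rw [MvPolynomial.coeff_sum]
  have h1 : ∀ i ∈ range (k + 1), coeff d (weightedHomogeneousComponent w i P) =
      if Finsupp.weight w d = i then P.coeff d else 0 := fun i _ =>
    coeff_weightedHomogeneousComponent (n := i) (φ := P) d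
  rw [Finset.sum_congr rfl h1, Finset.sum_ite_eq]
  by_cases h : Finsupp.weight w d ≤ k
  · rw [if_pos h, if_pos (Finset.mem_range.2 (by omega))]
  · rw [if_neg h, if_neg (fun h' => h (by have := Finset.mem_range.1 h'; omega))]

omit [Fintype σ] in
theorem support_tr (w : σ → ℕ) (k : ℕ) (P : MvPolynomial σ ℝ) :
    (tr w k P).support ⊆ P.support := by
  classical
  intro d hd
  rw [mem_support_iff] at hd ⊢
  rw [coeff_tr] at hd
  split_ifs at hd with h
  · exact hd
  · exact absurd rfl hd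

omit [Fintype σ] in
theorem totalDegree_tr (w : σ → ℕ) (k : ℕ) (P : MvPolynomial σ ℝ) :
    (tr w k P).totalDegree ≤ P.totalDegree :=
  Finset.sup_mono (support_tr w k P)

omit [Fintype σ] in
/-- The truncation of a polynomial without terms of weight at most `k`. -/
theorem tr_eq_zero {w : σ → ℕ} {k : ℕ} {P : MvPolynomial σ ℝ}
    (h : ∀ d ∈ P.support, k < Finsupp.weight w d) : tr w k P = 0 := by
  classical
  ext d
  rw [coeff_tr, coeff_zero]
  split_ifs with h'
  · by_contra h0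
    exact absurd (h d (mem_support_iff.2 h0)) (by omega)
  · rfl

/-! ### Curves -/

/-- The restriction of a polynomial to the curve `s ^ (w j) * v j`. -/
noncomputable def ray (w : σ → ℕ) (v : σ → ℝ) (P : MvPolynomial σ ℝ) : Polynomial ℝ :=
  aeval (fun j => Polynomial.X ^ (w j) * Polynomial.C (v j)) P

theorem ray_eval (w : σ → ℕ) (v : σ → ℝ) (P : MvPolynomial σ ℝ) (s : ℝ) :
    (ray w v P).eval s = eval (fun j => s ^ (w j) * v j) P := by
  unfold ray
  rw [MvPolynomial.aeval_def, MvPolynomial.eval₂_eq', Polynomial.eval_finsetSum,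
    MvPolynomial.eval_eq']
  refine Finset.sum_congr rfl fun d _ => ?_
  rw [Polynomial.eval_mul, Polynomial.eval_prod]
  congr 1
  · exact Polynomial.eval_C
  · refine Finset.prod_congr rfl fun j _ => ?_
    rw [Polynomial.eval_pow, Polynomial.eval_mul, Polynomial.eval_pow, Polynomial.eval_X,
      Polynomial.eval_C]

theorem ray_coeff (w : σ → ℕ) (v : σ → ℝ) (P : MvPolynomial σ ℝ) (i : ℕ) :
    (ray w v P).coeff i = eval v (weightedHomogeneousComponent w i P) := by
  classical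
  unfold ray
  rw [MvPolynomial.aeval_def, MvPolynomial.eval₂_eq', Polynomial.finsetSum_coeff,
    weightedHomogeneousComponent_apply, map_sum]
  have h1 : ∀ d ∈ P.support, (algebraMap ℝ (Polynomial ℝ) (P.coeff d) *
      ∏ j, (Polynomial.X ^ (w j) * Polynomial.C (v j)) ^ (d j)).coeff i =
      if Finsupp.weight w d = i then eval v (monomial d (P.coeff d)) else 0 := by
    intro d _
    have h2 : ∏ j, (Polynomial.X ^ (w j) * Polynomial.C (v j)) ^ (d j) =
        (Polynomial.X : Polynomial ℝ) ^ (Finsupp.weight w d) *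
          Polynomial.C (∏ j, v j ^ (d j)) := by
      rw [Finsupp.weight_eq_sum, ← Finset.prod_pow_eq_pow_sum, map_prod, ← Finset.prod_mul_distrib]
      refine Finset.prod_congr rfl fun j _ => ?_
      rw [mul_pow, ← pow_mul, map_pow, smul_eq_mul, mul_comm (w j)]
    rw [h2]
    have h3 : algebraMap ℝ (Polynomial ℝ) (P.coeff d) * ((Polynomial.X : Polynomial ℝ) ^
        (Finsupp.weight w d) * Polynomial.C (∏ j, v j ^ (d j))) =
        Polynomial.C (P.coeff d * ∏ j, v j ^ (d j)) * Polynomial.X ^ (Finsupp.weight w d) := by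
      rw [Polynomial.C_mul]
      show Polynomial.C (P.coeff d) * _ = _
      ring
    rw [h3, Polynomial.coeff_C_mul, Polynomial.coeff_X_pow]
    by_cases h4 : Finsupp.weight w d = i
    · rw [if_pos h4, if_pos h4.symm, mul_one, eval_monomial]
      congr 1
      rw [Finsupp.prod_fintype]
      intro j
      exact pow_zero _
    · rw [if_neg h4, if_neg (fun h => h4 h.symm), mul_zero]
  rw [Finset.sum_congr rfl h1, Finset.sum_filter]

omit [Fintype σ] in
theorem ray_sub (w : σ → ℕ) (v : σ → ℝ) (P Q : MvPolynomial σ ℝ) :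
    ray w v (P - Q) = ray w v P - ray w v Q := by
  unfold ray
  exact map_sub _ _ _

/-- The weight of a monomial is at most the largest weight times the degree. -/
theorem weight_le {w : σ → ℕ} {W K : ℕ} (hw : ∀ j, w j ≤ W) {P : MvPolynomial σ ℝ}
    (hP : P.totalDegree ≤ K) {d : σ →₀ ℕ} (hd : d ∈ P.support) : Finsupp.weight w d ≤ W * K := by
  rw [Finsupp.weight_eq_sum]
  have h1 : ∑ j, d j ≤ K := by
    have h2 := le_totalDegree hd
    rw [Finsupp.sum_fintype _ _ (fun _ => rfl)] at h2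
    exact h2.trans hP
  calc ∑ j, d j • w j ≤ ∑ j, W * d j := by
        refine Finset.sum_le_sum fun j _ => ?_
        rw [smul_eq_mul, mul_comm]
        exact Nat.mul_le_mul_right _ (hw j)
    _ = W * ∑ j, d j := (Finset.mul_sum _ _ _).symm
    _ ≤ W * K := Nat.mul_le_mul_left _ h1

theorem natDegree_ray {w : σ → ℕ} {W K : ℕ} (hw : ∀ j, w j ≤ W) (v : σ → ℝ)
    {P : MvPolynomial σ ℝ} (hP : P.totalDegree ≤ K) : (ray w v P).natDegree ≤ W * K := by
  rw [Polynomial.natDegree_le_iff_coeff_eq_zero]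
  intro N hN
  rw [ray_coeff, weightedHomogeneousComponent_eq_zero']
  · exact map_zero _
  · intro d hd h
    have := weight_le hw hP hd
    omega

omit [Fintype σ] in
theorem whc_tr (w : σ → ℕ) (k i : ℕ) (P : MvPolynomial σ ℝ) :
    weightedHomogeneousComponent w i (tr w k P) =
      if i ≤ k then weightedHomogeneousComponent w i P else 0 := by
  classical
  ext d
  have h1 : coeff d (weightedHomogeneousComponent w i (tr w k P)) =
      if Finsupp.weight w d = i then (tr w k P).coeff d else 0 :=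
    coeff_weightedHomogeneousComponent (n := i) (φ := tr w k P) d
  have h2 : coeff d (weightedHomogeneousComponent w i P) =
      if Finsupp.weight w d = i then P.coeff d else 0 :=
    coeff_weightedHomogeneousComponent (n := i) (φ := P) d
  rw [h1, coeff_tr]
  by_cases hi : i ≤ k
  · rw [if_pos hi, h2]
    by_cases hd : Finsupp.weight w d = i
    · rw [if_pos hd, if_pos hd, if_pos (by omega)]
    · rw [if_neg hd, if_neg hd]
  · rw [if_neg hi, coeff_zero]
    by_cases hd : Finsupp.weight w d = i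
    · rw [if_pos hd, if_neg (by omega)]
    · rw [if_neg hd]

/-- The truncation along a curve. -/
theorem eval_tr (w : σ → ℕ) (k : ℕ) (v : σ → ℝ) (P : MvPolynomial σ ℝ) (s : ℝ) :
    eval (fun j => s ^ (w j) * v j) (tr w k P) =
      ∑ i ∈ range (k + 1), (ray w v P).coeff i * s ^ i := by
  have h1 : (ray w v (tr w k P)).natDegree < k + 1 := by
    rw [Nat.lt_succ_iff, Polynomial.natDegree_le_iff_coeff_eq_zero]
    intro N hN
    rw [ray_coeff, whc_tr, if_neg (by omega)]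
    exact map_zero _
  rw [← ray_eval, Polynomial.eval_eq_sum_range' h1]
  refine Finset.sum_congr rfl fun i hi => ?_
  rw [ray_coeff, ray_coeff, whc_tr, if_pos (by have := Finset.mem_range.1 hi; omega)]

/-- The value of the truncation is the sum of the first coefficients along the curve. -/
theorem eval_tr_one (w : σ → ℕ) (k : ℕ) (v : σ → ℝ) (P : MvPolynomial σ ℝ) :
    eval v (tr w k P) = ∑ i ∈ range (k + 1), (ray w v P).coeff i := by
  have h := eval_tr w k v P 1
  have h2 : (fun j => (1 : ℝ) ^ (w j) * v j) = v := by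
    funext j
    rw [one_pow, one_mul]
  rw [h2] at h
  rw [h]
  exact Finset.sum_congr rfl fun i _ => by rw [one_pow, mul_one]

omit [Fintype σ] in
/-- At the centre the truncation has the value of the polynomial. -/
theorem eval_tr_zero (w : σ → ℕ) (k : ℕ) (P : MvPolynomial σ ℝ) :
    eval (0 : σ → ℝ) (tr w k P) = eval (0 : σ → ℝ) P := by
  classical
  rw [MvPolynomial.eval_zero, MvPolynomial.constantCoeff_eq,
    coeff_tr, if_pos]
  rw [map_zero]
  exact Nat.zero_le _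

/-- The constant of the coefficient bounds. -/
theorem ray_bound (D : ℕ) : ∃ C : ℝ, 0 < C ∧ ∀ (W K : ℕ), W * K ≤ D →
    ∀ (w : σ → ℕ), (∀ j, w j ≤ W) → ∀ (v₁ v₂ : σ → ℝ) (P₁ P₂ : MvPolynomial σ ℝ) (M : ℝ),
    P₁.totalDegree ≤ K → P₂.totalDegree ≤ K →
    (∀ s : ℝ, 0 ≤ s → s ≤ 1 → |eval (fun j => s ^ (w j) * v₁ j) P₁ -
      eval (fun j => s ^ (w j) * v₂ j) P₂| ≤ M) →
    ∀ i, |(ray w v₁ P₁).coeff i - (ray w v₂ P₂).coeff i| ≤ C * M := by
  obtain ⟨C, hC, hc⟩ := Pool.KAL.TAY.coef_bound D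
  refine ⟨C + 1, by linarith, fun W K hD w hw v₁ v₂ P₁ P₂ M h₁ h₂ h i => ?_⟩
  have hM : 0 ≤ M := (abs_nonneg _).trans (h 0 le_rfl zero_le_one)
  have hCM : C * M ≤ (C + 1) * M := mul_le_mul_of_nonneg_right (by linarith) hM
  have hd : (ray w v₁ P₁ - ray w v₂ P₂).natDegree ≤ D :=
    (Polynomial.natDegree_sub_le _ _).trans (max_le ((natDegree_ray hw v₁ h₁).trans hD)
      ((natDegree_ray hw v₂ h₂).trans hD))
  rw [← Polynomial.coeff_sub]
  refine le_trans ?_ hCM
  by_cases hi : i ≤ D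
  · refine hc _ M hd (fun s h0 h1 => ?_) i hi
    rw [Polynomial.eval_sub, ray_eval, ray_eval]
    exact h s h0 h1
  · rw [Polynomial.coeff_eq_zero_of_natDegree_lt (by omega), abs_zero]
    exact mul_nonneg hC hM

theorem ray_bound_one (D : ℕ) : ∃ C : ℝ, 0 < C ∧ ∀ (W K : ℕ), W * K ≤ D →
    ∀ (w : σ → ℕ), (∀ j, w j ≤ W) → ∀ (v : σ → ℝ) (P : MvPolynomial σ ℝ) (M : ℝ),
    P.totalDegree ≤ K →
    (∀ s : ℝ, 0 ≤ s → s ≤ 1 → |eval (fun j => s ^ (w j) * v j) P| ≤ M) →
    ∀ i, |(ray w v P).coeff i| ≤ C * M := by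
  obtain ⟨C, hC, hc⟩ := ray_bound (σ := σ) D
  refine ⟨C, hC, fun W K hD w hw v P M h₁ h i => ?_⟩
  have h2 := hc W K hD w hw v v P 0 M h₁ (by rw [totalDegree_zero]; exact Nat.zero_le _)
    (fun s h0 h1 => by rw [map_zero, sub_zero]; exact h s h0 h1) i
  have h3 : ray w v (0 : MvPolynomial σ ℝ) = 0 := map_zero _
  rw [h3, Polynomial.coeff_zero, sub_zero] at h2
  exact h2

/-- Two truncations are near if the polynomials are near along the two curves. -/
theorem tr_near (D k : ℕ) : ∃ C : ℝ, 0 < C ∧ ∀ (W K : ℕ), W * K ≤ D →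
    ∀ (w : σ → ℕ), (∀ j, w j ≤ W) → ∀ (v₁ v₂ : σ → ℝ) (P₁ P₂ : MvPolynomial σ ℝ) (M : ℝ),
    P₁.totalDegree ≤ K → P₂.totalDegree ≤ K →
    (∀ s : ℝ, 0 ≤ s → s ≤ 1 → |eval (fun j => s ^ (w j) * v₁ j) P₁ -
      eval (fun j => s ^ (w j) * v₂ j) P₂| ≤ M) →
    |eval v₁ (tr w k P₁) - eval v₂ (tr w k P₂)| ≤ C * M := by
  obtain ⟨C, hC, hc⟩ := ray_bound (σ := σ) D
  refine ⟨((k + 1 : ℕ) : ℝ) * C, by positivity,
    fun W K hD w hw v₁ v₂ P₁ P₂ M h₁ h₂ h => ?_⟩
  rw [eval_tr_one, eval_tr_one, ← Finset.sum_sub_distrib]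
  refine (Finset.abs_sum_le_sum_abs _ _).trans ?_
  refine (Finset.sum_le_sum fun i _ => hc W K hD w hw v₁ v₂ P₁ P₂ M h₁ h₂ h i).trans ?_
  rw [Finset.sum_const, card_range, nsmul_eq_mul, mul_assoc]

/-- The head grows like a power. -/
theorem head_bound (D k : ℕ) : ∃ C : ℝ, 0 < C ∧ ∀ (W K : ℕ), W * K ≤ D →
    ∀ (w : σ → ℕ), (∀ j, w j ≤ W) → ∀ (Win : σ → Set ℝ) (ρ : σ → ℝ) (P : MvPolynomial σ ℝ)
    (δ S : ℝ), P.totalDegree ≤ K → 1 ≤ S →
    (∀ v : σ → ℝ, (∀ j, w j = 0 → v j ∈ Win j) → (∀ j, w j ≠ 0 → |v j| ≤ ρ j) →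
      |eval v P| ≤ δ) →
    ∀ v : σ → ℝ, (∀ j, w j = 0 → v j ∈ Win j) → (∀ j, w j ≠ 0 → |v j| ≤ ρ j * S ^ (w j)) →
      |eval v (tr w k P)| ≤ C * (δ * S ^ k) := by
  obtain ⟨C, hC, hc⟩ := ray_bound_one (σ := σ) D
  refine ⟨((k + 1 : ℕ) : ℝ) * C, by positivity,
    fun W K hD w hw Win ρ P δ S hP hS h v hv₀ hv => ?_⟩
  have hS0 : 0 < S := lt_of_lt_of_le zero_lt_one hS
  obtain ⟨v', hv'⟩ : ∃ v' : σ → ℝ, v' = fun j => v j / S ^ (w j) := ⟨_, rfl⟩
  have hvv : v = fun j => S ^ (w j) * v' j := by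
    funext j
    rw [hv']
    exact (mul_div_cancel₀ _ (pow_ne_zero _ hS0.ne')).symm
  have hco : ∀ i, |(ray w v' P).coeff i| ≤ C * δ := by
    refine hc W K hD w hw v' P δ hP fun s h0 h1 => h _ (fun j hj => ?_) (fun j hj => ?_)
    · show s ^ (w j) * v' j ∈ Win j
      have h2 : S ^ (w j) * v' j ∈ Win j := by
        have h3 := hv₀ j hj
        rw [hvv] at h3
        exact h3
      rw [hj, pow_zero, one_mul]
      rw [hj, pow_zero, one_mul] at h2
      exact h2
    · show |s ^ (w j) * v' j| ≤ ρ j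
      have h2 : |v' j| ≤ ρ j := by
        rw [hv']
        show |v j / S ^ (w j)| ≤ ρ j
        rw [abs_div, abs_of_pos (pow_pos hS0 _), div_le_iff₀ (pow_pos hS0 _)]
        exact hv j hj
      rw [abs_mul, abs_of_nonneg (pow_nonneg h0 _)]
      exact (mul_le_of_le_one_left (abs_nonneg _) (pow_le_one₀ h0 h1)).trans h2
  have hδ : 0 ≤ C * δ := (abs_nonneg _).trans (hco 0)
  rw [hvv, eval_tr]
  refine (Finset.abs_sum_le_sum_abs _ _).trans ?_
  have h3 : ∀ i ∈ range (k + 1), |(ray w v' P).coeff i * S ^ i| ≤ C * δ * S ^ k := by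
    intro i hi
    rw [abs_mul, abs_of_pos (pow_pos hS0 _)]
    exact mul_le_mul (hco i) (pow_le_pow_right₀ hS (by have := Finset.mem_range.1 hi; omega))
      (pow_pos hS0 _).le hδ
  refine (Finset.sum_le_sum h3).trans ?_
  rw [Finset.sum_const, card_range, nsmul_eq_mul]
  exact le_of_eq (by ring)

/-- The tail is small near the centre. -/
theorem tail_bound (D k : ℕ) : ∃ C : ℝ, 0 < C ∧ ∀ (W K : ℕ), W * K ≤ D →
    ∀ (w : σ → ℕ), (∀ j, w j ≤ W) → ∀ (Win : σ → Set ℝ) (ρ : σ → ℝ) (P : MvPolynomial σ ℝ)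
    (δ θ : ℝ), P.totalDegree ≤ K → 0 < θ → θ ≤ 1 →
    (∀ v : σ → ℝ, (∀ j, w j = 0 → v j ∈ Win j) → (∀ j, w j ≠ 0 → |v j| ≤ ρ j) →
      |eval v P| ≤ δ) →
    ∀ v : σ → ℝ, (∀ j, w j = 0 → v j ∈ Win j) → (∀ j, w j ≠ 0 → |v j| ≤ ρ j * θ ^ (w j)) →
      |eval v P - eval v (tr w k P)| ≤ C * (δ * θ ^ (k + 1)) := by
  obtain ⟨C, hC, hc⟩ := ray_bound_one (σ := σ) D
  refine ⟨((D + 1 : ℕ) : ℝ) * C, by positivity,
    fun W K hD w hw Win ρ P δ θ hP hθ hθ1 h v hv₀ hv => ?_⟩
  obtain ⟨v', hv'⟩ : ∃ v' : σ → ℝ, v' = fun j => v j / θ ^ (w j) := ⟨_, rfl⟩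
  have hvv : v = fun j => θ ^ (w j) * v' j := by
    funext j
    rw [hv']
    exact (mul_div_cancel₀ _ (pow_ne_zero _ hθ.ne')).symm
  have hco : ∀ i, |(ray w v' P).coeff i| ≤ C * δ := by
    refine hc W K hD w hw v' P δ hP fun s h0 h1 => h _ (fun j hj => ?_) (fun j hj => ?_)
    · show s ^ (w j) * v' j ∈ Win j
      have h2 : θ ^ (w j) * v' j ∈ Win j := by
        have h3 := hv₀ j hj
        rw [hvv] at h3
        exact h3
      rw [hj, pow_zero, one_mul]
      rw [hj, pow_zero, one_mul] at h2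
      exact h2
    · show |s ^ (w j) * v' j| ≤ ρ j
      have h2 : |v' j| ≤ ρ j := by
        rw [hv']
        show |v j / θ ^ (w j)| ≤ ρ j
        rw [abs_div, abs_of_pos (pow_pos hθ _), div_le_iff₀ (pow_pos hθ _)]
        exact hv j hj
      rw [abs_mul, abs_of_nonneg (pow_nonneg h0 _)]
      exact (mul_le_of_le_one_left (abs_nonneg _) (pow_le_one₀ h0 h1)).trans h2
  have hδ : 0 ≤ C * δ := (abs_nonneg _).trans (hco 0)
  have hdeg : (ray w v' P).natDegree < k + 1 + (D + 1) := by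
    have := (natDegree_ray hw v' hP).trans hD
    omega
  have h4 : eval v P - eval v (tr w k P) =
      ∑ i ∈ range (D + 1), (ray w v' P).coeff (k + 1 + i) * θ ^ (k + 1 + i) := by
    rw [hvv, eval_tr, ← ray_eval, Polynomial.eval_eq_sum_range' hdeg, Finset.sum_range_add,
      add_sub_cancel_left]
  rw [h4]
  refine (Finset.abs_sum_le_sum_abs _ _).trans ?_
  have h3 : ∀ i ∈ range (D + 1), |(ray w v' P).coeff (k + 1 + i) * θ ^ (k + 1 + i)| ≤
      C * δ * θ ^ (k + 1) := by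
    intro i _
    rw [abs_mul, abs_of_pos (pow_pos hθ _)]
    exact mul_le_mul (hco _) (pow_le_pow_of_le_one hθ.le hθ1 (by omega))
      (pow_pos hθ _).le hδ
  refine (Finset.sum_le_sum h3).trans ?_
  rw [Finset.sum_const, card_range, nsmul_eq_mul]
  exact le_of_eq (by ring)

/-! ### Order -/

/-- All the monomials have weight at least `n`. -/
def lo (w : σ → ℕ) (n : ℕ) (P : MvPolynomial σ ℝ) : Prop :=
  ∀ d ∈ P.support, n ≤ Finsupp.weight w d

omit [Fintype σ] in
theorem lo_mono {w : σ → ℕ} {n n' : ℕ} {P : MvPolynomial σ ℝ} (h : n' ≤ n) (hP : lo w n P) :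
    lo w n' P :=
  fun d hd => h.trans (hP d hd)

omit [Fintype σ] in
theorem lo_mul {w : σ → ℕ} {n n' : ℕ} {P Q : MvPolynomial σ ℝ} (hP : lo w n P)
    (hQ : lo w n' Q) : lo w (n + n') (P * Q) := by
  classical
  intro d hd
  obtain ⟨a, ha, b, hb, hab⟩ := Finset.mem_add.1 (support_mul P Q hd)
  rw [← hab, map_add]
  exact Nat.add_le_add (hP a ha) (hQ b hb)

omit [Fintype σ] in
theorem lo_zero (w : σ → ℕ) (P : MvPolynomial σ ℝ) : lo w 0 P := fun _ _ => Nat.zero_le _

omit [Fintype σ] in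
theorem lo_pow {w : σ → ℕ} {n : ℕ} {P : MvPolynomial σ ℝ} (hP : lo w n P) (e : ℕ) :
    lo w (e * n) (P ^ e) := by
  induction e with
  | zero => rw [zero_mul]; exact lo_zero _ _
  | succ e ih =>
    rw [pow_succ, Nat.succ_mul]
    exact lo_mul ih hP

omit [Fintype σ] in
theorem lo_prod {w : σ → ℕ} {ι : Type} (s : Finset ι) (n : ι → ℕ) (P : ι → MvPolynomial σ ℝ)
    (h : ∀ i ∈ s, lo w (n i) (P i)) : lo w (∑ i ∈ s, n i) (∏ i ∈ s, P i) := by
  classical
  induction s using Finset.induction_on with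
  | empty => rw [Finset.sum_empty]; exact lo_zero _ _
  | insert a s ha ih =>
    rw [Finset.sum_insert ha, Finset.prod_insert ha]
    exact lo_mul (h a (Finset.mem_insert_self a s))
      (ih fun i hi => h i (Finset.mem_insert_of_mem hi))

omit [Fintype σ] in
theorem lo_sum {w : σ → ℕ} {ι : Type} (s : Finset ι) (n : ℕ) (P : ι → MvPolynomial σ ℝ)
    (h : ∀ i ∈ s, lo w n (P i)) : lo w n (∑ i ∈ s, P i) := by
  classical
  intro d hd
  rw [mem_support_iff, MvPolynomial.coeff_sum] at hd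
  obtain ⟨i, hi, hne⟩ := Finset.exists_ne_zero_of_sum_ne_zero hd
  exact h i hi d (mem_support_iff.2 hne)

/-- Substitution raises the order. -/
theorem lo_aeval {w w' : σ → ℕ} {n : ℕ} {χ : σ → MvPolynomial σ ℝ} {P : MvPolynomial σ ℝ}
    (hP : lo w' n P) (hχ : ∀ i, lo w (w' i) (χ i)) : lo w n (aeval χ P) := by
  rw [MvPolynomial.aeval_def, MvPolynomial.eval₂_eq']
  refine lo_sum _ _ _ fun d hd => ?_
  have h1 : lo w (0 + ∑ i, d i * w' i)
      (algebraMap ℝ (MvPolynomial σ ℝ) (P.coeff d) * ∏ i, χ i ^ (d i)) :=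
    lo_mul (lo_zero _ _) (lo_prod _ _ _ fun i _ => lo_pow (hχ i) _)
  refine lo_mono ?_ h1
  rw [zero_add]
  refine (hP d hd).trans (le_of_eq ?_)
  rw [Finsupp.weight_eq_sum]
  exact Finset.sum_congr rfl fun i _ => smul_eq_mul _ _

omit [Fintype σ] in
theorem lo_tail (w : σ → ℕ) (k : ℕ) (P : MvPolynomial σ ℝ) : lo w (k + 1) (P - tr w k P) := by
  classical
  intro d hd
  rw [mem_support_iff, coeff_sub, coeff_tr] at hd
  by_contra h
  rw [if_pos (by omega), sub_self] at hd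
  exact hd rfl

/-- The head of a composition depends on the head only. -/
theorem tr_aeval {w w' : σ → ℕ} (k : ℕ) {χ : σ → MvPolynomial σ ℝ}
    (hχ : ∀ i, lo w (w' i) (χ i)) (P : MvPolynomial σ ℝ) :
    tr w k (aeval χ P) = tr w k (aeval χ (tr w' k P)) := by
  have h1 : tr w k (aeval χ (P - tr w' k P)) = 0 :=
    tr_eq_zero fun d hd => lo_aeval (lo_tail w' k P) hχ d hd
  rw [map_sub, tr_sub, sub_eq_zero] at h1
  exact h1

/-! ### Compositions -/

theorem eval_aeval (v : σ → ℝ) (φ : σ → MvPolynomial σ ℝ) (P : MvPolynomial σ ℝ) :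
    eval v (aeval φ P) = eval (fun i => eval v (φ i)) P := by
  rw [MvPolynomial.aeval_def, MvPolynomial.eval₂_eq', map_sum,
    MvPolynomial.eval_eq' (fun i => eval v (φ i)) P]
  refine Finset.sum_congr rfl fun d _ => ?_
  rw [map_mul, map_prod]
  congr 1
  · exact eval_C _
  · exact Finset.prod_congr rfl fun i _ => map_pow _ _ _

theorem totalDegree_aeval {K L : ℕ} {χ : σ → MvPolynomial σ ℝ}
    (hχ : ∀ i, (χ i).totalDegree ≤ L) {P : MvPolynomial σ ℝ} (hP : P.totalDegree ≤ K) :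
    (aeval χ P).totalDegree ≤ K * L := by
  rw [MvPolynomial.aeval_def, MvPolynomial.eval₂_eq']
  refine totalDegree_finsetSum_le fun d hd => ?_
  refine (totalDegree_mul _ _).trans ?_
  have h0 : (algebraMap ℝ (MvPolynomial σ ℝ) (P.coeff d)).totalDegree = 0 := totalDegree_C _
  rw [h0, zero_add]
  refine (totalDegree_finsetProd _ _).trans ?_
  have h1 : ∑ j, d j ≤ K := by
    have h2 := le_totalDegree hd
    rw [Finsupp.sum_fintype _ _ (fun _ => rfl)] at h2
    exact h2.trans hP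
  calc ∑ i, (χ i ^ (d i)).totalDegree ≤ ∑ i, d i * L :=
        Finset.sum_le_sum fun i _ => (totalDegree_pow _ _).trans (Nat.mul_le_mul_left _ (hχ i))
    _ = (∑ i, d i) * L := (Finset.sum_mul _ _ _).symm
    _ ≤ K * L := Nat.mul_le_mul_right _ h1

/-! ### The labels -/

/-- The new label: `G0` corrected by the head, in the chart `φ` (inverse `φ'`), of `GM - G0`. -/
noncomputable def lab (w : σ → ℕ) (k : ℕ) (φ φ' : σ → MvPolynomial σ ℝ)
    (G0 GM : MvPolynomial σ ℝ) : MvPolynomial σ ℝ :=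
  G0 + aeval φ' (tr w k (aeval φ (GM - G0)))

/-- The value of the new label at the point with natural coordinates `v`. -/
theorem eval_lab (w : σ → ℕ) (k : ℕ) (φ φ' : σ → MvPolynomial σ ℝ) (G0 GM : MvPolynomial σ ℝ)
    (X : σ → ℝ) : eval X (lab w k φ φ' G0 GM) =
      eval X G0 + eval (fun i => eval X (φ' i)) (tr w k (aeval φ (GM - G0))) := by
  unfold lab
  rw [map_add, eval_aeval]

/-- The degree of the new label. -/
theorem totalDegree_lab {w : σ → ℕ} {k K L : ℕ} {φ φ' : σ → MvPolynomial σ ℝ}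
    {G0 GM : MvPolynomial σ ℝ} (hφ : ∀ i, (φ i).totalDegree ≤ L)
    (hφ' : ∀ i, (φ' i).totalDegree ≤ L) (h0 : G0.totalDegree ≤ K) (hM : GM.totalDegree ≤ K) :
    (lab w k φ φ' G0 GM).totalDegree ≤ max K (K * L * L) := by
  refine (totalDegree_add _ _).trans (max_le_max h0 ?_)
  refine totalDegree_aeval hφ' ((totalDegree_tr _ _ _).trans (totalDegree_aeval hφ ?_))
  exact (totalDegree_sub _ _).trans (max_le hM h0)

/-- At the centre of the chart the new label has the value of the fine one. -/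
theorem eval_lab_centre {w : σ → ℕ} {k : ℕ} {φ φ' : σ → MvPolynomial σ ℝ}
    {G0 GM : MvPolynomial σ ℝ} {X : σ → ℝ} (h1 : ∀ i, eval X (φ' i) = 0)
    (h2 : ∀ i, eval 0 (φ i) = X i) : eval X (lab w k φ φ' G0 GM) = eval X GM := by
  have h3 : (fun i => eval X (φ' i)) = (0 : σ → ℝ) := funext h1
  have h4 : (fun i => eval (0 : σ → ℝ) (φ i)) = X := funext h2
  rw [eval_lab, h3, eval_tr_zero, eval_aeval, h4, map_sub]
  ring

/-- The centre of the chart may move a little: two charts `φ`, `ψ` with coordinates `v`, `u` of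
the same point. -/
theorem lab_near (D k : ℕ) : ∃ C : ℝ, 0 < C ∧ ∀ (W K : ℕ), W * K ≤ D →
    ∀ (w : σ → ℕ), (∀ j, w j ≤ W) → ∀ (φ φ' ψ ψ' : σ → MvPolynomial σ ℝ)
    (G0 GM : MvPolynomial σ ℝ) (X v u : σ → ℝ) (M : ℝ),
    (aeval φ (GM - G0)).totalDegree ≤ K → (aeval ψ (GM - G0)).totalDegree ≤ K →
    (∀ i, eval X (φ' i) = v i) → (∀ i, eval X (ψ' i) = u i) →
    (∀ s : ℝ, 0 ≤ s → s ≤ 1 →
      |eval (fun i => eval (fun j => s ^ (w j) * v j) (φ i)) (GM - G0) -
        eval (fun i => eval (fun j => s ^ (w j) * u j) (ψ i)) (GM - G0)| ≤ M) →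
    |eval X (lab w k φ φ' G0 GM) - eval X (lab w k ψ ψ' G0 GM)| ≤ C * M := by
  obtain ⟨C, hC, hc⟩ := tr_near (σ := σ) D k
  refine ⟨C, hC, fun W K hD w hw φ φ' ψ ψ' G0 GM X v u M h1 h2 hv hu h => ?_⟩
  have hv' : (fun i => eval X (φ' i)) = v := funext hv
  have hu' : (fun i => eval X (ψ' i)) = u := funext hu
  rw [eval_lab, eval_lab, hv', hu', add_sub_add_left_eq_sub]
  refine hc W K hD w hw v u _ _ M h1 h2 fun s h0 h1 => ?_
  rw [eval_aeval, eval_aeval]
  exact h s h0 h1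

/-- **The label algebra of LEMMA C.** `i₁` is the time, `wt` the weights; `φ` (inverse `φ'`) is
the natural chart of the point, `ψ` (inverse `ψ'`) the one of the line. The germs `G0`, `GM` agree
with the polynomials `H 0`, `H M` of the line on the box `ρ` and on the box of ratio `τ`;
consecutive polynomials of the line differ by `δ s` on the tube of ratio `τs s`. -/
theorem lemC_alg [DecidableEq σ] (K L W k : ℕ) : ∃ C : ℝ, 0 < C ∧
    ∀ (wt : σ → ℕ) (i₁ : σ) (φ φ' ψ ψ' : σ → MvPolynomial σ ℝ) (G0 GM : MvPolynomial σ ℝ)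
    (H : ℕ → MvPolynomial σ ℝ) (M : ℕ) (ρ ρ' : σ → ℝ) (Win : Set ℝ) (δ0 δM B θ τ : ℝ)
    (δ τs : ℕ → ℝ),
    (∀ j, wt j ≤ W) → (∀ i, (φ i).totalDegree ≤ L) → (∀ i, (ψ i).totalDegree ≤ L) →
    (∀ i, (ψ' i).totalDegree ≤ L) → G0.totalDegree ≤ K → GM.totalDegree ≤ K →
    (∀ s, s ≤ M → (H s).totalDegree ≤ K) →
    (∀ i, aeval φ (φ' i) = X i) → (∀ i, aeval ψ' (ψ i) = X i) →
    (∀ i, i ≠ i₁ → ∀ d ∈ (aeval φ (ψ' i)).support, wt i ≤ Finsupp.weight wt d) →
    (∀ v : σ → ℝ, (∀ j, |v j| ≤ ρ j) → |eval (fun i => eval v (φ i)) G0 -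
      eval (fun i => eval v (φ i)) (H 0)| ≤ δ0) →
    (∀ v : σ → ℝ, (∀ j, |v j| ≤ ρ j * τ ^ (wt j)) → |eval (fun i => eval v (φ i)) GM -
      eval (fun i => eval v (φ i)) (H M)| ≤ δM) →
    (∀ s, s < M → ∀ u : σ → ℝ, u i₁ ∈ Win → (∀ j, j ≠ i₁ → |u j| ≤ ρ' j * τs s ^ (wt j)) →
      |eval (fun i => eval u (ψ i)) (H (s + 1)) - eval (fun i => eval u (ψ i)) (H s)| ≤ δ s) →
    (∀ v : σ → ℝ, (∀ j, |v j| ≤ ρ j) → eval (fun i => eval v (φ i)) (ψ' i₁) ∈ Win ∧
      ∀ j, j ≠ i₁ → |eval (fun i => eval v (φ i)) (ψ' j)| ≤ ρ' j * B ^ (wt j)) →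
    0 < τ → τ ≤ θ → θ ≤ 1 → (∀ s, s < M → 0 < τs s ∧ τs s ≤ B) →
    ∀ v : σ → ℝ, (∀ j, |v j| ≤ ρ j * θ ^ (wt j)) →
      |eval (fun i => eval v (φ i)) (lab wt k φ φ' G0 GM) -
        eval (fun i => eval v (φ i)) (lab (Function.update wt i₁ 0) k ψ ψ' (H 0) (H M))| ≤
      C * (δ0 * θ ^ (k + 1) + δM * (θ / τ) ^ k +
        θ ^ (k + 1) * ∑ s ∈ range M, δ s * (B / τs s) ^ k) := by
  obtain ⟨D, hDdef⟩ : ∃ D : ℕ, D = W * (K * L) + W * (K * L * (L * L)) := ⟨_, rfl⟩
  have hD1 : W * (K * L) ≤ D := by rw [hDdef]; exact Nat.le_add_right _ _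
  have hD2 : W * (K * L * (L * L)) ≤ D := by rw [hDdef]; exact Nat.le_add_left _ _
  obtain ⟨Ch, hCh, hch⟩ := head_bound (σ := σ) D k
  obtain ⟨Ct, hCt, hct⟩ := tail_bound (σ := σ) D k
  refine ⟨Ct + Ch + Ct * Ch, by positivity, ?_⟩
  intro wt i₁ φ φ' ψ ψ' G0 GM H M ρ ρ' Win δ0 δM B θ τ δ τs hW hφ hψ hψ' hG0 hGM hH hinv hinv'
    hord h0 hM hstep hbox hτ hτθ hθ hτs v hv
  have hθ0 : 0 < θ := lt_of_lt_of_le hτ hτθ
  -- the natural box lies in the unit box
  have hρ : ∀ j, 0 ≤ ρ j := by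
    intro j
    have h1 : 0 ≤ ρ j * θ ^ (wt j) := (abs_nonneg _).trans (hv j)
    exact nonneg_of_mul_nonneg_left h1 (pow_pos hθ0 _)
  obtain ⟨w', hw'⟩ : ∃ w' : σ → ℕ, w' = Function.update wt i₁ 0 := ⟨_, rfl⟩
  rw [← hw']
  have hw'1 : w' i₁ = 0 := by rw [hw']; exact Function.update_self _ _ _
  have hw'2 : ∀ j, j ≠ i₁ → w' j = wt j := fun j hj => by
    rw [hw']; exact Function.update_of_ne hj _ _
  have hW' : ∀ j, w' j ≤ W := by
    intro j
    by_cases hj : j = i₁
    · rw [hj, hw'1]; exact Nat.zero_le _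
    · rw [hw'2 j hj]; exact hW j
  obtain ⟨χ, hχdef⟩ : ∃ χ : σ → MvPolynomial σ ℝ, χ = fun i => aeval φ (ψ' i) := ⟨_, rfl⟩
  have hχe : ∀ u : σ → ℝ, (fun i => eval u (χ i)) =
      fun i => eval (fun j => eval u (φ j)) (ψ' i) := by
    intro u
    funext i
    rw [hχdef]
    exact eval_aeval _ _ _
  have hχlo : ∀ i, lo wt (w' i) (χ i) := by
    intro i
    by_cases hi : i = i₁
    · rw [hi, hw'1]; exact lo_zero _ _
    · rw [hw'2 i hi, hχdef]; exact hord i hi
  have hχdeg : ∀ i, (χ i).totalDegree ≤ L * L := by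
    intro i
    rw [hχdef]
    exact totalDegree_aeval hφ (hψ' i)
  -- the three polynomials
  obtain ⟨A, hA⟩ : ∃ A : MvPolynomial σ ℝ, A = aeval φ (G0 - H 0) := ⟨_, rfl⟩
  obtain ⟨Bm, hBm⟩ : ∃ Bm : MvPolynomial σ ℝ, Bm = aeval φ (GM - H M) := ⟨_, rfl⟩
  obtain ⟨Q, hQ⟩ : ∃ Q : MvPolynomial σ ℝ, Q = aeval ψ (H M - H 0) := ⟨_, rfl⟩
  obtain ⟨R, hR⟩ : ∃ R : MvPolynomial σ ℝ, R = aeval χ (tr w' k Q) := ⟨_, rfl⟩
  have hAdeg : A.totalDegree ≤ K * L := by
    rw [hA]
    exact totalDegree_aeval hφ ((totalDegree_sub _ _).trans (max_le hG0 (hH 0 (Nat.zero_le _))))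
  have hBdeg : Bm.totalDegree ≤ K * L := by
    rw [hBm]
    exact totalDegree_aeval hφ ((totalDegree_sub _ _).trans (max_le hGM (hH M le_rfl)))
  have hQdeg : Q.totalDegree ≤ K * L := by
    rw [hQ]
    exact totalDegree_aeval hψ ((totalDegree_sub _ _).trans (max_le (hH M le_rfl)
      (hH 0 (Nat.zero_le _))))
  have hRdeg : R.totalDegree ≤ K * L * (L * L) := by
    rw [hR]
    exact totalDegree_aeval hχdeg ((totalDegree_tr _ _ _).trans hQdeg)
  -- the difference of the polynomials of the line in the chart of the point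
  have hcomp : aeval φ (H M - H 0) = aeval χ Q := by
    rw [hQ, MvPolynomial.comp_aeval_apply (f := ψ) (aeval χ) (H M - H 0)]
    have h1 : (fun i => aeval χ (ψ i)) = φ := by
      funext i
      have h2 : aeval φ (aeval ψ' (ψ i)) = aeval χ (ψ i) := by
        rw [hχdef]
        exact MvPolynomial.comp_aeval_apply (f := ψ') (aeval φ) (ψ i)
      rw [← h2, hinv' i, aeval_X]
    rw [h1]
  -- the identity
  have hid : eval (fun i => eval v (φ i)) (lab wt k φ φ' G0 GM) -
      eval (fun i => eval v (φ i)) (lab w' k ψ ψ' (H 0) (H M)) =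
      (eval v A - eval v (tr wt k A)) + eval v (tr wt k Bm) -
        (eval v R - eval v (tr wt k R)) := by
    rw [eval_lab, eval_lab]
    have h1 : (fun i => eval (fun j => eval v (φ j)) (φ' i)) = v := by
      funext i
      rw [← eval_aeval, hinv i, eval_X]
    rw [h1, ← hQ, ← hχe v, ← eval_aeval v χ, ← hR]
    have h2 : aeval φ (GM - G0) = Bm + aeval χ Q - A := by
      rw [hBm, hA, ← hcomp, ← map_add, ← map_sub]
      congr 1
      ring
    have h3 : tr wt k (aeval χ Q) = tr wt k R := by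
      rw [hR]
      exact tr_aeval k hχlo Q
    have h4 : eval v A = eval (fun i => eval v (φ i)) G0 -
        eval (fun i => eval v (φ i)) (H 0) := by
      rw [hA, eval_aeval, map_sub]
    rw [h2, tr_sub, tr_add, h3, map_sub, map_add, h4]
    ring
  rw [hid]
  -- first term
  have hb1 : |eval v A - eval v (tr wt k A)| ≤ Ct * (δ0 * θ ^ (k + 1)) := by
    refine hct W (K * L) hD1 wt hW (fun j => {x | |x| ≤ ρ j}) ρ A δ0 θ hAdeg hθ0 hθ
      (fun u hu₀ hu => ?_) v (fun j hj => ?_) (fun j _ => hv j)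
    · rw [hA, eval_aeval, map_sub]
      refine h0 u fun j => ?_
      by_cases hj : wt j = 0
      · exact hu₀ j hj
      · exact hu j hj
    · have := hv j
      rw [hj, pow_zero, mul_one] at this
      exact this
  -- second term
  have hb2 : |eval v (tr wt k Bm)| ≤ Ch * (δM * (θ / τ) ^ k) := by
    refine hch W (K * L) hD1 wt hW (fun j => {x | |x| ≤ ρ j}) (fun j => ρ j * τ ^ (wt j)) Bm δM
      (θ / τ) hBdeg ((one_le_div₀ hτ).2 hτθ) (fun u hu₀ hu => ?_) v (fun j hj => ?_)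
      (fun j _ => ?_)
    · rw [hBm, eval_aeval, map_sub]
      refine hM u fun j => ?_
      by_cases hj : wt j = 0
      · rw [hj, pow_zero, mul_one]
        exact hu₀ j hj
      · exact hu j hj
    · have := hv j
      rw [hj, pow_zero, mul_one] at this
      exact this
    · show |v j| ≤ ρ j * τ ^ (wt j) * (θ / τ) ^ (wt j)
      rw [mul_assoc, ← mul_pow, mul_div_cancel₀ _ hτ.ne']
      exact hv j
  -- third term
  have hR1 : ∀ u : σ → ℝ, (∀ j, |u j| ≤ ρ j) →
      |eval u R| ≤ Ch * ∑ s ∈ range M, δ s * (B / τs s) ^ k := by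
    intro u hu
    have h1 : Q = ∑ s ∈ range M, aeval ψ (H (s + 1) - H s) := by
      rw [hQ, ← map_sum, Finset.sum_range_sub]
    rw [hR, eval_aeval, hχe u, h1, tr_sum, map_sum, Finset.mul_sum]
    refine (Finset.abs_sum_le_sum_abs _ _).trans (Finset.sum_le_sum fun s hs => ?_)
    have hsM : s < M := Finset.mem_range.1 hs
    obtain ⟨hτ1, hτ2⟩ := hτs s hsM
    obtain ⟨hb, hb'⟩ := hbox u hu
    refine hch W (K * L) hD1 w' hW' (fun j => if j = i₁ then Win else {x | |x| ≤ ρ' j})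
      (fun j => ρ' j * τs s ^ (wt j)) _ (δ s) (B / τs s)
      (totalDegree_aeval hψ ((totalDegree_sub _ _).trans (max_le (hH (s + 1) hsM)
        (hH s hsM.le)))) ((one_le_div₀ hτ1).2 hτ2) (fun z hz₀ hz => ?_) _ (fun j hj => ?_)
      (fun j hj => ?_)
    · rw [eval_aeval, map_sub]
      refine hstep s hsM z ?_ fun j hj => ?_
      · have h2 := hz₀ i₁ hw'1
        rw [if_pos rfl] at h2
        exact h2
      · by_cases hj0 : wt j = 0
        · have h2 := hz₀ j (by rw [hw'2 j hj]; exact hj0)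
          rw [if_neg hj] at h2
          rw [hj0, pow_zero, mul_one]
          exact h2
        · exact hz j (by rw [hw'2 j hj]; exact hj0)
    · by_cases hj1 : j = i₁
      · rw [if_pos hj1, hj1]
        exact hb
      · rw [if_neg hj1]
        have h2 := hb' j hj1
        rw [hw'2 j hj1] at hj
        rw [hj, pow_zero, mul_one] at h2
        exact h2
    · have hj1 : j ≠ i₁ := fun h => hj (by rw [h]; exact hw'1)
      show |eval (fun i => eval u (φ i)) (ψ' j)| ≤ ρ' j * τs s ^ (wt j) * (B / τs s) ^ (w' j)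
      rw [hw'2 j hj1, mul_assoc, ← mul_pow, mul_div_cancel₀ _ hτ1.ne']
      exact hb' j hj1
  have hb3 : |eval v R - eval v (tr wt k R)| ≤
      Ct * (Ch * (∑ s ∈ range M, δ s * (B / τs s) ^ k) * θ ^ (k + 1)) := by
    refine hct W (K * L * (L * L)) hD2 wt hW (fun j => {x | |x| ≤ ρ j}) ρ R _ θ hRdeg hθ0 hθ
      (fun u hu₀ hu => ?_) v (fun j hj => ?_) (fun j _ => hv j)
    · refine hR1 u fun j => ?_
      by_cases hj : wt j = 0
      · exact hu₀ j hj
      · exact hu j hj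
    · have := hv j
      rw [hj, pow_zero, mul_one] at this
      exact this
  obtain ⟨a, ha⟩ : ∃ a : ℝ, a = δ0 * θ ^ (k + 1) := ⟨_, rfl⟩
  obtain ⟨b, hb⟩ : ∃ b : ℝ, b = δM * (θ / τ) ^ k := ⟨_, rfl⟩
  obtain ⟨c, hc⟩ : ∃ c : ℝ, c = θ ^ (k + 1) * ∑ s ∈ range M, δ s * (B / τs s) ^ k := ⟨_, rfl⟩
  have hb3' : |eval v R - eval v (tr wt k R)| ≤ Ct * Ch * c := by
    refine hb3.trans (le_of_eq ?_)
    rw [hc]
    ring
  rw [← ha] at hb1
  rw [← hb] at hb2
  rw [← ha, ← hb, ← hc]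
  have ha0 : 0 ≤ a := nonneg_of_mul_nonneg_right ((abs_nonneg _).trans hb1) hCt
  have hb0 : 0 ≤ b := nonneg_of_mul_nonneg_right ((abs_nonneg _).trans hb2) hCh
  have hc0 : 0 ≤ c := nonneg_of_mul_nonneg_right ((abs_nonneg _).trans hb3') (mul_pos hCt hCh)
  have h5 := abs_add_le (eval v A - eval v (tr wt k A)) (eval v (tr wt k Bm))
  have h6 := abs_sub ((eval v A - eval v (tr wt k A)) + eval v (tr wt k Bm))
    (eval v R - eval v (tr wt k R))
  have e1 : 0 ≤ (Ch + Ct * Ch) * a := by positivity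
  have e2 : 0 ≤ (Ct + Ct * Ch) * b := by positivity
  have e3 : 0 ≤ (Ct + Ch) * c := by positivity
  nlinarith [h5, h6, hb1, hb2, hb3', e1, e2, e3]

/-! ### The isotropic case -/

/-- The new label of the point `x`, all the weights one: a polynomial which depends on the germs
of the point only. -/
noncomputable def labP (k : ℕ) (x : σ → ℝ) (G0 GM : MvPolynomial σ ℝ) : MvPolynomial σ ℝ :=
  lab (fun _ => 1) k (fun i => X i + C (x i)) (fun i => X i - C (x i)) G0 GM

/-- The centre path `t ↦ (t, p i (t))` of a line. -/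
noncomputable def psi [DecidableEq σ] (i₁ : σ) (p : σ → Polynomial ℝ) (i : σ) :
    MvPolynomial σ ℝ :=
  if i = i₁ then X i₁ else X i + Polynomial.aeval (X i₁ : MvPolynomial σ ℝ) (p i)

/-- The inverse of `psi`. -/
noncomputable def psi' [DecidableEq σ] (i₁ : σ) (p : σ → Polynomial ℝ) (i : σ) :
    MvPolynomial σ ℝ :=
  if i = i₁ then X i₁ else X i - Polynomial.aeval (X i₁ : MvPolynomial σ ℝ) (p i)

/-- The new polynomial of the line with centre path `p`. -/
noncomputable def labL [DecidableEq σ] (k : ℕ) (i₁ : σ) (p : σ → Polynomial ℝ)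
    (H0 HM : MvPolynomial σ ℝ) : MvPolynomial σ ℝ :=
  lab (Function.update (fun _ => 1) i₁ 0) k (psi i₁ p) (psi' i₁ p) H0 HM

omit [Fintype σ] in
theorem totalDegree_path (i₁ : σ) (q : Polynomial ℝ) {L : ℕ} (hq : q.natDegree ≤ L) :
    (Polynomial.aeval (X i₁ : MvPolynomial σ ℝ) q).totalDegree ≤ L := by
  rw [Polynomial.aeval_eq_sum_range]
  refine totalDegree_finsetSum_le fun i hi => ?_
  refine (totalDegree_smul_le _ _).trans ?_
  rw [totalDegree_X_pow]
  exact (by have := Finset.mem_range.1 hi; omega)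

omit [Fintype σ] in
theorem eval_path (i₁ : σ) (q : Polynomial ℝ) (z : σ → ℝ) :
    eval z (Polynomial.aeval (X i₁ : MvPolynomial σ ℝ) q) = q.eval (z i₁) := by
  rw [Polynomial.aeval_eq_sum_range, map_sum, Polynomial.eval_eq_sum_range]
  refine Finset.sum_congr rfl fun i _ => ?_
  rw [MvPolynomial.smul_eq_C_mul, map_mul, map_pow, eval_C, eval_X]

omit [Fintype σ] in
theorem totalDegree_psi [DecidableEq σ] (i₁ : σ) (p : σ → Polynomial ℝ) {L : ℕ}
    (hp : ∀ i, (p i).natDegree ≤ L) (i : σ) : (psi i₁ p i).totalDegree ≤ max 1 L := by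
  unfold psi
  split_ifs with h
  · rw [totalDegree_X]; exact le_max_left _ _
  · refine (totalDegree_add _ _).trans (max_le_max ?_ (totalDegree_path _ _ (hp i)))
    rw [totalDegree_X]

omit [Fintype σ] in
theorem totalDegree_psi' [DecidableEq σ] (i₁ : σ) (p : σ → Polynomial ℝ) {L : ℕ}
    (hp : ∀ i, (p i).natDegree ≤ L) (i : σ) : (psi' i₁ p i).totalDegree ≤ max 1 L := by
  unfold psi'
  split_ifs with h
  · rw [totalDegree_X]; exact le_max_left _ _
  · refine (totalDegree_sub _ _).trans (max_le_max ?_ (totalDegree_path _ _ (hp i)))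
    rw [totalDegree_X]

omit [Fintype σ] in
theorem psi_inv [DecidableEq σ] (i₁ : σ) (p : σ → Polynomial ℝ) (i : σ) :
    aeval (psi' i₁ p) (psi i₁ p i) = X i := by
  have h0 : psi' i₁ p i₁ = X i₁ := if_pos rfl
  unfold psi
  split_ifs with h
  · rw [aeval_X, h0, h]
  · rw [map_add, aeval_X, ← Polynomial.aeval_algHom_apply, aeval_X, h0]
    unfold psi'
    rw [if_neg h]
    ring

omit [Fintype σ] in
theorem eval_psi [DecidableEq σ] (i₁ : σ) (p : σ → Polynomial ℝ) (u : σ → ℝ) (i : σ) :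
    eval u (psi i₁ p i) = if i = i₁ then u i₁ else u i + (p i).eval (u i₁) := by
  unfold psi
  split_ifs with h
  · exact eval_X _
  · rw [map_add, eval_X, eval_path]

omit [Fintype σ] in
theorem eval_psi' [DecidableEq σ] (i₁ : σ) (p : σ → Polynomial ℝ) (z : σ → ℝ) (i : σ) :
    eval z (psi' i₁ p i) = if i = i₁ then z i₁ else z i - (p i).eval (z i₁) := by
  unfold psi'
  split_ifs with h
  · exact eval_X _
  · rw [map_sub, eval_X, eval_path]

/-- The new label of the point has at its own point the value of the fine germ. -/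
theorem eval_labP (k : ℕ) (x : σ → ℝ) (G0 GM : MvPolynomial σ ℝ) :
    eval x (labP k x G0 GM) = eval x GM := by
  refine eval_lab_centre (fun i => ?_) (fun i => ?_)
  · rw [map_sub, eval_X, eval_C, sub_self]
  · rw [map_add, eval_X, eval_C, Pi.zero_apply, zero_add]

theorem totalDegree_labP {k K : ℕ} (x : σ → ℝ) {G0 GM : MvPolynomial σ ℝ}
    (h0 : G0.totalDegree ≤ K) (hM : GM.totalDegree ≤ K) :
    (labP k x G0 GM).totalDegree ≤ K := by
  refine (totalDegree_lab (L := 1) (fun i => ?_) (fun i => ?_) h0 hM).trans ?_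
  · refine (totalDegree_add _ _).trans (max_le ?_ ?_)
    · rw [totalDegree_X]
    · rw [totalDegree_C]; exact Nat.zero_le _
  · refine (totalDegree_sub _ _).trans (max_le ?_ ?_)
    · rw [totalDegree_X]
    · rw [totalDegree_C]; exact Nat.zero_le _
  · rw [mul_one, mul_one, max_self]

theorem totalDegree_labL [DecidableEq σ] {k K L : ℕ} (i₁ : σ) {p : σ → Polynomial ℝ}
    (hp : ∀ i, (p i).natDegree ≤ L) {H0 HM : MvPolynomial σ ℝ}
    (h0 : H0.totalDegree ≤ K) (hM : HM.totalDegree ≤ K) :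
    (labL k i₁ p H0 HM).totalDegree ≤ max K (K * max 1 L * max 1 L) :=
  totalDegree_lab (totalDegree_psi i₁ p hp) (totalDegree_psi' i₁ p hp) h0 hM

/-- **LEMMA C, label algebra, isotropic.** `x` is a point of the path `(t, p i (t))`; `r` is the
radius of the coarse ball, `r * τ` the one of the fine ball, `r * θ` the new one; `E` is a bound
of the velocities. -/
theorem lemC_iso [DecidableEq σ] (K L k : ℕ) : ∃ C : ℝ, 0 < C ∧
    ∀ (i₁ : σ) (x : σ → ℝ) (p : σ → Polynomial ℝ) (G0 GM : MvPolynomial σ ℝ)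
    (H : ℕ → MvPolynomial σ ℝ) (M : ℕ) (Win : Set ℝ) (δ0 δM E r θ τ : ℝ) (δ τs : ℕ → ℝ),
    (∀ i, (p i).natDegree ≤ L) → G0.totalDegree ≤ K → GM.totalDegree ≤ K →
    (∀ s, s ≤ M → (H s).totalDegree ≤ K) →
    (∀ i, i ≠ i₁ → x i = (p i).eval (x i₁)) →
    (∀ z : σ → ℝ, (∀ j, |z j - x j| ≤ r) → |eval z G0 - eval z (H 0)| ≤ δ0) →
    (∀ z : σ → ℝ, (∀ j, |z j - x j| ≤ r * τ) → |eval z GM - eval z (H M)| ≤ δM) →
    (∀ s, s < M → ∀ z : σ → ℝ, z i₁ ∈ Win →
      (∀ j, j ≠ i₁ → |z j - (p j).eval (z i₁)| ≤ r * τs s) →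
      |eval z (H (s + 1)) - eval z (H s)| ≤ δ s) →
    (∀ t : ℝ, |t - x i₁| ≤ r → t ∈ Win ∧ ∀ j, j ≠ i₁ →
      |(p j).eval t - (p j).eval (x i₁)| ≤ E * |t - x i₁|) →
    0 ≤ E → 0 < τ → τ ≤ θ → θ ≤ 1 → (∀ s, s < M → 0 < τs s ∧ τs s ≤ 1) →
    ∀ z : σ → ℝ, (∀ j, |z j - x j| ≤ r * θ) →
      |eval z (labP k x G0 GM) - eval z (labL k i₁ p (H 0) (H M))| ≤
      C * (δ0 * θ ^ (k + 1) + δM * (θ / τ) ^ k +
        (1 + E) ^ k * θ ^ (k + 1) * ∑ s ∈ range M, δ s / τs s ^ k) := by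
  obtain ⟨C₀, hC₀, hc⟩ := lemC_alg (σ := σ) K (max 1 L) 1 k
  refine ⟨C₀, hC₀, ?_⟩
  intro i₁ x p G0 GM H M Win δ0 δM E r θ τ δ τs hp hG0 hGM hH hx h0 hM hstep hwin hE hτ hτθ hθ
    hτs z hz
  obtain ⟨φ, hφ⟩ : ∃ φ : σ → MvPolynomial σ ℝ, φ = fun i => X i + C (x i) := ⟨_, rfl⟩
  obtain ⟨φ', hφ'⟩ : ∃ φ' : σ → MvPolynomial σ ℝ, φ' = fun i => X i - C (x i) := ⟨_, rfl⟩
  have hφe : ∀ v : σ → ℝ, (fun i => eval v (φ i)) = fun i => v i + x i := by
    intro v
    funext i
    rw [hφ]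
    show eval v (X i + C (x i)) = _
    rw [map_add, eval_X, eval_C]
  have hψe : ∀ u : σ → ℝ, (fun i => eval u (psi i₁ p i)) =
      fun i => if i = i₁ then u i₁ else u i + (p i).eval (u i₁) := fun u =>
    funext fun i => eval_psi i₁ p u i
  have hv : (fun i => eval (fun j => z j - x j) (φ i)) = z := by
    rw [hφe]
    funext i
    exact sub_add_cancel _ _
  have key := hc (fun _ => 1) i₁ φ φ' (psi i₁ p) (psi' i₁ p) G0 GM H M (fun _ => r) (fun _ => r)
    Win δ0 δM (1 + E) θ τ δ τs (fun _ => le_rfl) (fun i => ?_) (totalDegree_psi i₁ p hp)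
    (totalDegree_psi' i₁ p hp) hG0 hGM hH (fun i => ?_) (psi_inv i₁ p) (fun i hi d hd => ?_)
    (fun v hv => ?_) (fun v hv => ?_) (fun s hs u hu1 hu => ?_) (fun v hv => ?_) hτ hτθ hθ
    (fun s hs => ⟨(hτs s hs).1, (hτs s hs).2.trans (by linarith)⟩) (fun j => z j - x j)
    (fun j => by rw [pow_one]; exact hz j)
  · rw [hv] at key
    have h3 : labP k x G0 GM = lab (fun _ => 1) k φ φ' G0 GM := by rw [hφ, hφ']; rfl
    rw [h3]
    refine key.trans (le_of_eq ?_)
    have h4 : ∑ s ∈ range M, δ s * ((1 + E) / τs s) ^ k =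
        (1 + E) ^ k * ∑ s ∈ range M, δ s / τs s ^ k := by
      rw [Finset.mul_sum]
      refine Finset.sum_congr rfl fun s _ => ?_
      rw [div_pow]
      ring
    rw [h4]
    ring
  · rw [hφ]
    refine (totalDegree_add _ _).trans (max_le ?_ ?_)
    · rw [totalDegree_X]; exact le_max_left _ _
    · rw [totalDegree_C]; exact Nat.zero_le _
  · rw [hφ', hφ]
    show aeval _ (X i - C (x i)) = X i
    rw [map_sub, aeval_X, aeval_C]
    exact add_sub_cancel_right _ _
  · by_contra h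
    have hd0 : d = 0 := by
      have h1 : Finsupp.weight (fun _ : σ => 1) d = 0 := by omega
      rw [Finsupp.weight_eq_sum] at h1
      ext j
      have h2 := (Finset.sum_eq_zero_iff.1 h1) j (Finset.mem_univ j)
      rw [smul_eq_mul, mul_one] at h2
      exact h2
    rw [mem_support_iff, hd0] at hd
    apply hd
    have h5 : coeff 0 (aeval φ (psi' i₁ p i)) = eval (0 : σ → ℝ) (aeval φ (psi' i₁ p i)) := by
      rw [MvPolynomial.eval_zero, MvPolynomial.constantCoeff_eq]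
    rw [h5, eval_aeval, hφe, eval_psi', if_neg hi]
    show 0 + x i - (p i).eval (0 + x i₁) = 0
    rw [zero_add, zero_add, hx i hi, sub_self]
  · rw [hφe]
    refine h0 _ fun j => ?_
    show |v j + x j - x j| ≤ r
    rw [add_sub_cancel_right]
    exact hv j
  · rw [hφe]
    refine hM _ fun j => ?_
    show |v j + x j - x j| ≤ r * τ
    rw [add_sub_cancel_right]
    have := hv j
    rw [pow_one] at this
    exact this
  · rw [hψe]
    refine hstep s hs _ ?_ fun j hj => ?_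
    · show (if i₁ = i₁ then u i₁ else _) ∈ Win
      rw [if_pos rfl]
      exact hu1
    · show |(if j = i₁ then u i₁ else u j + (p j).eval (u i₁)) -
        (p j).eval (if i₁ = i₁ then u i₁ else _)| ≤ r * τs s
      rw [if_neg hj, if_pos rfl, add_sub_cancel_right]
      have := hu j hj
      rw [pow_one] at this
      exact this
  · rw [hφe]
    have h6 := hwin (v i₁ + x i₁) (by rw [add_sub_cancel_right]; exact hv i₁)
    refine ⟨?_, fun j hj => ?_⟩
    · rw [eval_psi', if_pos rfl]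
      exact h6.1
    · rw [eval_psi', if_neg hj]
      show |v j + x j - (p j).eval (v i₁ + x i₁)| ≤ r * (1 + E) ^ 1
      rw [pow_one]
      have h7 := h6.2 j hj
      rw [add_sub_cancel_right] at h7
      have h8 : v j + x j - (p j).eval (v i₁ + x i₁) =
          v j - ((p j).eval (v i₁ + x i₁) - (p j).eval (x i₁)) := by
        rw [hx j hj]
        ring
      rw [h8]
      refine (abs_sub _ _).trans ?_
      have h9 : E * |v i₁| ≤ E * r := mul_le_mul_of_nonneg_left (hv i₁) hE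
      have h10 := hv j
      nlinarith [h7, h9, h10]

end Pool.GEN.LemC
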