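import Pool.Agent.H4.GEN.LemC

/-!
# LEMMA C: the centre of the chart moves, without loss

`lab_shift`: the new labels for the chart `φ` and for the translated chart differ by the
modulus of continuity `M` of the coarse difference on the FINE box, times `S ^ k`.
-/

set_option autoImplicit false

namespace Pool.GEN.LemC

open Finset MvPolynomial

variable {σ : Type} [Fintype σ]

/-- All the monomials have weight at most `n`. -/
def hi (w : σ → ℕ) (n : ℕ) (P : MvPolynomial σ ℝ) : Prop :=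
  ∀ d ∈ P.support, Finsupp.weight w d ≤ n

omit [Fintype σ] in
theorem hi_mono {w : σ → ℕ} {n n' : ℕ} {P : MvPolynomial σ ℝ} (h : n ≤ n') (hP : hi w n P) :
    hi w n' P :=
  fun d hd => (hP d hd).trans h

omit [Fintype σ] in
theorem hi_mul {w : σ → ℕ} {n n' : ℕ} {P Q : MvPolynomial σ ℝ} (hP : hi w n P)
    (hQ : hi w n' Q) : hi w (n + n') (P * Q) := by
  classical
  intro d hd
  obtain ⟨a, ha, b, hb, hab⟩ := Finset.mem_add.1 (support_mul P Q hd)
  rw [← hab, map_add]
  exact Nat.add_le_add (hP a ha) (hQ b hb)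

omit [Fintype σ] in
theorem hi_C (w : σ → ℕ) (c : ℝ) : hi w 0 (C c) := by
  classical
  intro d hd
  rw [mem_support_iff, coeff_C] at hd
  by_cases h : (0 : σ →₀ ℕ) = d
  · rw [← h, map_zero]
  · rw [if_neg h] at hd
    exact absurd rfl hd

omit [Fintype σ] in
theorem hi_add {w : σ → ℕ} {n : ℕ} {P Q : MvPolynomial σ ℝ} (hP : hi w n P)
    (hQ : hi w n Q) : hi w n (P + Q) := by
  classical
  intro d hd
  rw [mem_support_iff, coeff_add] at hd
  by_cases h : P.coeff d = 0
  · rw [h, zero_add] at hd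
    exact hQ d (mem_support_iff.2 hd)
  · exact hP d (mem_support_iff.2 h)

omit [Fintype σ] in
theorem hi_neg {w : σ → ℕ} {n : ℕ} {P : MvPolynomial σ ℝ} (hP : hi w n P) : hi w n (-P) := by
  intro d hd
  rw [mem_support_iff, coeff_neg, neg_ne_zero] at hd
  exact hP d (mem_support_iff.2 hd)

omit [Fintype σ] in
theorem hi_pow {w : σ → ℕ} {n : ℕ} {P : MvPolynomial σ ℝ} (hP : hi w n P) (e : ℕ) :
    hi w (e * n) (P ^ e) := by
  induction e with
  | zero =>
    rw [zero_mul, pow_zero]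
    exact hi_C w 1
  | succ e ih =>
    rw [pow_succ, Nat.succ_mul]
    exact hi_mul ih hP

omit [Fintype σ] in
theorem hi_prod {w : σ → ℕ} {ι : Type} (s : Finset ι) (n : ι → ℕ) (P : ι → MvPolynomial σ ℝ)
    (h : ∀ i ∈ s, hi w (n i) (P i)) : hi w (∑ i ∈ s, n i) (∏ i ∈ s, P i) := by
  classical
  induction s using Finset.induction_on with
  | empty =>
    rw [Finset.sum_empty, Finset.prod_empty]
    exact hi_C w 1
  | insert a s ha ih =>
    rw [Finset.sum_insert ha, Finset.prod_insert ha]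
    exact hi_mul (h a (Finset.mem_insert_self a s))
      (ih fun i hi => h i (Finset.mem_insert_of_mem hi))

omit [Fintype σ] in
theorem hi_sum {w : σ → ℕ} {ι : Type} (s : Finset ι) (n : ℕ) (P : ι → MvPolynomial σ ℝ)
    (h : ∀ i ∈ s, hi w n (P i)) : hi w n (∑ i ∈ s, P i) := by
  classical
  intro d hd
  rw [mem_support_iff, MvPolynomial.coeff_sum] at hd
  obtain ⟨i, hi, hne⟩ := Finset.exists_ne_zero_of_sum_ne_zero hd
  exact h i hi d (mem_support_iff.2 hne)

/-- Substitution does not raise the weight. -/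
theorem hi_aeval {w w' : σ → ℕ} {n : ℕ} {χ : σ → MvPolynomial σ ℝ} {P : MvPolynomial σ ℝ}
    (hP : hi w' n P) (hχ : ∀ i, hi w (w' i) (χ i)) : hi w n (aeval χ P) := by
  rw [MvPolynomial.aeval_def, MvPolynomial.eval₂_eq']
  refine hi_sum _ _ _ fun d hd => ?_
  have h1 : hi w (0 + ∑ i, d i * w' i)
      (algebraMap ℝ (MvPolynomial σ ℝ) (P.coeff d) * ∏ i, χ i ^ (d i)) :=
    hi_mul (hi_C w _) (hi_prod _ _ _ fun i _ => hi_pow (hχ i) _)
  refine hi_mono ?_ h1
  rw [zero_add]
  refine le_trans (le_of_eq ?_) (hP d hd)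
  rw [Finsupp.weight_eq_sum]
  exact Finset.sum_congr rfl fun i _ => (smul_eq_mul _ _).symm

omit [Fintype σ] in
theorem hi_tr (w : σ → ℕ) (k : ℕ) (P : MvPolynomial σ ℝ) : hi w k (tr w k P) := by
  classical
  intro d hd
  rw [mem_support_iff, coeff_tr] at hd
  by_contra h
  rw [if_neg h] at hd
  exact hd rfl

omit [Fintype σ] in
theorem tr_of_hi {w : σ → ℕ} {k : ℕ} {P : MvPolynomial σ ℝ} (hP : hi w k P) :
    tr w k P = P := by
  classical
  ext d
  rw [coeff_tr]
  split_ifs with h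
  · rfl
  · by_contra h0
    exact h (hP d (mem_support_iff.2 fun h1 => h0 h1.symm))

omit [Fintype σ] in
theorem hi_X_add_C (w : σ → ℕ) (i : σ) (c : ℝ) : hi w (w i) (X i + C c) := by
  classical
  refine hi_add ?_ (hi_mono (Nat.zero_le _) (hi_C w c))
  intro d hd
  rw [mem_support_iff, coeff_X] at hd
  by_cases h : Finsupp.single i 1 = d
  · rw [← h, Finsupp.weight_single, smul_eq_mul, one_mul]
  · rw [if_neg h] at hd
    exact absurd rfl hd

/-- **The centre of the chart moves by `ε`.** -/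
theorem lab_shift (D k : ℕ) : ∃ C₀ : ℝ, 0 < C₀ ∧ ∀ (W K : ℕ), W * K ≤ D →
    ∀ (w : σ → ℕ), (∀ j, w j ≤ W) → ∀ (φ φ' : σ → MvPolynomial σ ℝ)
    (G0 GM : MvPolynomial σ ℝ) (ε ρ : σ → ℝ) (S M : ℝ),
    (aeval φ (GM - G0)).totalDegree ≤ K → (∀ i, aeval φ (φ' i) = X i) → 1 ≤ S →
    (∀ j, |ε j| ≤ ρ j) →
    (∀ v₁ v₂ : σ → ℝ, (∀ j, |v₁ j| ≤ 2 * ρ j) → (∀ j, |v₂ j| ≤ 2 * ρ j) →
      (∀ j, |v₁ j - v₂ j| ≤ |ε j|) →
      |eval (fun i => eval v₁ (φ i)) (GM - G0) - eval (fun i => eval v₂ (φ i)) (GM - G0)| ≤ M) →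
    ∀ v : σ → ℝ, (∀ j, |v j| ≤ ρ j * S ^ (w j)) →
      |eval (fun i => eval v (φ i)) (lab w k φ φ' G0 GM) -
        eval (fun i => eval v (φ i)) (lab w k (fun i => aeval (fun j => X j + C (ε j)) (φ i))
          (fun i => φ' i - C (ε i)) G0 GM)| ≤ C₀ * (M * S ^ k) := by
  obtain ⟨C₁, hC₁, hnear⟩ := tr_near (σ := σ) D k
  obtain ⟨C₂, hC₂, hhead⟩ := head_bound (σ := σ) D k
  refine ⟨C₂ * C₁, by positivity, ?_⟩
  intro W K hD w hw φ φ' G0 GM ε ρ S M hdeg hinv hS hε h v hv
  have hρ : ∀ j, 0 ≤ ρ j := fun j => (abs_nonneg _).trans (hε j)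
  obtain ⟨R, hR⟩ : ∃ R : MvPolynomial σ ℝ, R = aeval φ (GM - G0) := ⟨_, rfl⟩
  obtain ⟨sh, hsh⟩ : ∃ sh : σ → MvPolynomial σ ℝ, sh = fun j => X j + C (ε j) := ⟨_, rfl⟩
  obtain ⟨sh', hsh'⟩ : ∃ sh' : σ → MvPolynomial σ ℝ, sh' = fun j => X j + C (-ε j) := ⟨_, rfl⟩
  obtain ⟨R', hR'⟩ : ∃ R' : MvPolynomial σ ℝ, R' = aeval sh R := ⟨_, rfl⟩
  have hshe : ∀ u : σ → ℝ, (fun i => eval u (sh i)) = fun i => u i + ε i := by
    intro u
    funext i
    rw [hsh]
    show eval u (X i + C (ε i)) = _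
    rw [map_add, eval_X, eval_C]
  have hsh'e : ∀ u : σ → ℝ, (fun i => eval u (sh' i)) = fun i => u i - ε i := by
    intro u
    funext i
    rw [hsh']
    show eval u (X i + C (-ε i)) = _
    rw [map_add, eval_X, eval_C]
    ring
  have hshd : ∀ i, (sh i).totalDegree ≤ 1 := by
    intro i
    rw [hsh]
    refine (totalDegree_add _ _).trans (max_le ?_ ?_)
    · rw [totalDegree_X]
    · rw [totalDegree_C]; exact Nat.zero_le _
  have hR'd : R'.totalDegree ≤ K := by
    rw [hR']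
    have := totalDegree_aeval hshd (P := R) (K := K) (by rw [hR]; exact hdeg)
    rwa [mul_one] at this
  -- the second truncation, in the coordinates of the first chart
  obtain ⟨E, hE⟩ : ∃ E : MvPolynomial σ ℝ, E = tr w k R - aeval sh' (tr w k R') := ⟨_, rfl⟩
  have hEe : ∀ u : σ → ℝ, eval u E =
      eval u (tr w k R) - eval (fun i => u i - ε i) (tr w k R') := by
    intro u
    rw [hE, map_sub, eval_aeval, hsh'e]
  have hEhi : hi w k E := by
    rw [hE, sub_eq_add_neg]
    refine hi_add (hi_tr w k R) (hi_neg (hi_aeval (hi_tr w k R') fun i => ?_))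
    rw [hsh']
    exact hi_X_add_C w i _
  have hEd : E.totalDegree ≤ K := by
    rw [hE]
    refine (totalDegree_sub _ _).trans (max_le ?_ ?_)
    · refine (totalDegree_tr w k R).trans ?_
      rw [hR]
      exact hdeg
    · have h2 : ∀ i, (sh' i).totalDegree ≤ 1 := by
        intro i
        rw [hsh']
        refine (totalDegree_add _ _).trans (max_le ?_ ?_)
        · rw [totalDegree_X]
        · rw [totalDegree_C]; exact Nat.zero_le _
      have := totalDegree_aeval h2 (P := tr w k R') (K := K)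
        ((totalDegree_tr w k R').trans hR'd)
      rwa [mul_one] at this
  -- the bound on the small box
  have hsmall : ∀ u : σ → ℝ, (∀ j, |u j| ≤ ρ j) → |eval u E| ≤ C₁ * M := by
    intro u hu
    rw [hEe]
    refine hnear W K hD w hw u (fun i => u i - ε i) R R' M (by rw [hR]; exact hdeg) hR'd
      fun s h0 h1 => ?_
    have e1 : eval (fun j => s ^ (w j) * (u j - ε j)) R' =
        eval (fun j => s ^ (w j) * (u j - ε j) + ε j) R := by
      rw [hR', eval_aeval, hshe]
    show |eval (fun j => s ^ (w j) * u j) R - eval (fun j => s ^ (w j) * (u j - ε j)) R'| ≤ M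
    rw [e1, hR, eval_aeval, eval_aeval]
    have hs : ∀ j, 0 ≤ s ^ (w j) ∧ s ^ (w j) ≤ 1 := fun j =>
      ⟨pow_nonneg h0 _, pow_le_one₀ h0 h1⟩
    refine h _ _ (fun j => ?_) (fun j => ?_) (fun j => ?_)
    · rw [abs_mul, abs_of_nonneg (hs j).1]
      have := mul_le_of_le_one_left (abs_nonneg (u j)) (hs j).2
      linarith [hu j, hρ j]
    · have e2 : s ^ (w j) * (u j - ε j) + ε j = s ^ (w j) * u j + (1 - s ^ (w j)) * ε j := by
        ring
      rw [e2]
      refine (abs_add_le _ _).trans ?_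
      rw [abs_mul, abs_mul, abs_of_nonneg (hs j).1,
        abs_of_nonneg (by linarith [(hs j).2] : (0 : ℝ) ≤ 1 - s ^ (w j))]
      have h2 := mul_le_of_le_one_left (abs_nonneg (u j)) (hs j).2
      have h3 := mul_le_of_le_one_left (abs_nonneg (ε j))
        (by linarith [(hs j).1] : 1 - s ^ (w j) ≤ 1)
      linarith [hu j, hε j]
    · have e2 : s ^ (w j) * u j - (s ^ (w j) * (u j - ε j) + ε j) =
          -((1 - s ^ (w j)) * ε j) := by ring
      rw [e2, abs_neg, abs_mul,
        abs_of_nonneg (by linarith [(hs j).2] : (0 : ℝ) ≤ 1 - s ^ (w j))]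
      exact mul_le_of_le_one_left (abs_nonneg (ε j))
        (by linarith [(hs j).1] : 1 - s ^ (w j) ≤ 1)
  -- growth
  have hbig := hhead W K hD w hw (fun j => {x | |x| ≤ ρ j}) ρ E (C₁ * M) S hEd hS
    (fun u hu₀ hu => hsmall u fun j => by
      by_cases hj : w j = 0
      · exact hu₀ j hj
      · exact hu j hj) v (fun j hj => by
      have := hv j
      rw [hj, pow_zero, mul_one] at this
      exact this) (fun j _ => hv j)
  rw [tr_of_hi hEhi, hEe] at hbig
  have hv1 : (fun i => eval (fun j => eval v (φ j)) (φ' i)) = v := by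
    funext i
    rw [← eval_aeval, hinv i, eval_X]
  have hv2 : (fun i => eval (fun j => eval v (φ j)) (φ' i - C (ε i))) = fun i => v i - ε i := by
    funext i
    have e1 : eval (fun j => eval v (φ j)) (φ' i) = v i := congrFun hv1 i
    rw [map_sub, eval_C, e1]
  have hcomp : aeval (fun i => aeval sh (φ i)) (GM - G0) = R' := by
    rw [hR', hR]
    exact (MvPolynomial.comp_aeval_apply (f := φ) (aeval sh) (GM - G0)).symm
  rw [hsh] at hcomp
  rw [eval_lab, eval_lab, hv1, hv2, hcomp, ← hR, add_sub_add_left_eq_sub]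
  refine hbig.trans (le_of_eq (by ring))

/-- The isotropic case: the centre moves from `x` to `x'`. -/
theorem labP_move (K k : ℕ) : ∃ C₀ : ℝ, 0 < C₀ ∧ ∀ (G0 GM : MvPolynomial σ ℝ) (x x' : σ → ℝ)
    (r S M : ℝ), G0.totalDegree ≤ K → GM.totalDegree ≤ K → 1 ≤ S → (∀ j, |x' j - x j| ≤ r) →
    (∀ z₁ z₂ : σ → ℝ, (∀ j, |z₁ j - x j| ≤ 2 * r) → (∀ j, |z₂ j - x j| ≤ 2 * r) →
      (∀ j, |z₁ j - z₂ j| ≤ |x' j - x j|) → |eval z₁ (GM - G0) - eval z₂ (GM - G0)| ≤ M) →
    ∀ z : σ → ℝ, (∀ j, |z j - x j| ≤ r * S) →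
      |eval z (labP k x G0 GM) - eval z (labP k x' G0 GM)| ≤ C₀ * (M * S ^ k) := by
  obtain ⟨C₀, hC₀, hc⟩ := lab_shift (σ := σ) (1 * K) k
  refine ⟨C₀, hC₀, ?_⟩
  intro G0 GM x x' r S M h0 hM hS hx h z hz
  obtain ⟨φ, hφ⟩ : ∃ φ : σ → MvPolynomial σ ℝ, φ = fun i => X i + C (x i) := ⟨_, rfl⟩
  have hφe : ∀ v : σ → ℝ, (fun i => eval v (φ i)) = fun i => v i + x i := by
    intro v
    funext i
    rw [hφ]
    show eval v (X i + C (x i)) = _
    rw [map_add, eval_X, eval_C]
  have hφd : ∀ i, (φ i).totalDegree ≤ 1 := by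
    intro i
    rw [hφ]
    refine (totalDegree_add _ _).trans (max_le ?_ ?_)
    · rw [totalDegree_X]
    · rw [totalDegree_C]; exact Nat.zero_le _
  have hdeg : (aeval φ (GM - G0)).totalDegree ≤ K := by
    have := totalDegree_aeval hφd (P := GM - G0) (K := K)
      ((totalDegree_sub _ _).trans (max_le hM h0))
    rwa [mul_one] at this
  have key := hc 1 K le_rfl (fun _ => 1) (fun _ => le_rfl) φ (fun i => X i - C (x i)) G0 GM
    (fun j => x' j - x j) (fun _ => r) S M hdeg (fun i => ?_) hS hx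
    (fun v₁ v₂ h1 h2 h3 => ?_) (fun j => z j - x j) (fun j => by rw [pow_one]; exact hz j)
  · rw [hφe] at key
    have e1 : (fun i => z i - x i + x i) = z := by
      funext i
      exact sub_add_cancel _ _
    have e2 : (fun i => aeval (fun j => X j + C (x' j - x j)) (φ i)) =
        fun i => (X i + C (x' i) : MvPolynomial σ ℝ) := by
      funext i
      rw [hφ]
      show aeval _ (X i + C (x i)) = _
      rw [map_add, aeval_X, aeval_C, C_sub]
      show X i + (C (x' i) - C (x i)) + C (x i) = _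
      ring
    have e3 : (fun i => (X i - C (x i) - C (x' i - x i) : MvPolynomial σ ℝ)) =
        fun i => X i - C (x' i) := by
      funext i
      rw [C_sub]
      ring
    rw [e1, e2, e3, hφ] at key
    exact key
  · rw [hφ]
    show aeval _ (X i - C (x i)) = X i
    rw [map_sub, aeval_X, aeval_C]
    exact add_sub_cancel_right _ _
  · rw [hφe, hφe]
    refine h _ _ (fun j => ?_) (fun j => ?_) (fun j => ?_)
    · show |v₁ j + x j - x j| ≤ 2 * r
      rw [add_sub_cancel_right]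
      exact h1 j
    · show |v₂ j + x j - x j| ≤ 2 * r
      rw [add_sub_cancel_right]
      exact h2 j
    · show |v₁ j + x j - (v₂ j + x j)| ≤ |x' j - x j|
      rw [add_sub_add_right_eq_sub]
      exact h3 j

end Pool.GEN.LemC
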