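import Pool.Agent.H4.GEN.LemC2

/-!
# LEMMA C: the label algebra for charts with mismatch
-/

set_option autoImplicit false

namespace Pool.GEN.LemC

open Finset MvPolynomial

variable {σ : Type} [Fintype σ]

/-- **The label algebra of LEMMA C, charts with mismatch.** As `lemC_alg`, but the two charts are
compared only on the box `ρ` and on the box of ratio `τ'`: there is no condition on the
coefficients of the change of charts. The price is the last term. -/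
theorem lemC_mm [DecidableEq σ] (K L W k : ℕ) : ∃ C : ℝ, 0 < C ∧
    ∀ (wt : σ → ℕ) (i₁ : σ) (φ φ' ψ ψ' : σ → MvPolynomial σ ℝ) (G0 GM : MvPolynomial σ ℝ)
    (H : ℕ → MvPolynomial σ ℝ) (M : ℕ) (ρ ρ' : σ → ℝ) (Win : Set ℝ) (δ0 δM B θ τ τ' : ℝ)
    (δ τs : ℕ → ℝ),
    (∀ j, wt j ≤ W) → (∀ i, (φ i).totalDegree ≤ L) → (∀ i, (ψ i).totalDegree ≤ L) →
    (∀ i, (ψ' i).totalDegree ≤ L) → G0.totalDegree ≤ K → GM.totalDegree ≤ K →
    (∀ s, s ≤ M → (H s).totalDegree ≤ K) →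
    (∀ i, aeval φ (φ' i) = X i) → (∀ i, aeval ψ' (ψ i) = X i) →
    (∀ v : σ → ℝ, (∀ j, |v j| ≤ ρ j) → |eval (fun i => eval v (φ i)) G0 -
      eval (fun i => eval v (φ i)) (H 0)| ≤ δ0) →
    (∀ v : σ → ℝ, (∀ j, |v j| ≤ ρ j * τ ^ (wt j)) → |eval (fun i => eval v (φ i)) GM -
      eval (fun i => eval v (φ i)) (H M)| ≤ δM) →
    (∀ s, s < M → ∀ u : σ → ℝ, u i₁ ∈ Win → (∀ j, j ≠ i₁ → |u j| ≤ ρ' j * τs s ^ (wt j)) →
      |eval (fun i => eval u (ψ i)) (H (s + 1)) - eval (fun i => eval u (ψ i)) (H s)| ≤ δ s) →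
    (∀ v : σ → ℝ, (∀ j, |v j| ≤ ρ j) → eval (fun i => eval v (φ i)) (ψ' i₁) ∈ Win ∧
      ∀ j, j ≠ i₁ → |eval (fun i => eval v (φ i)) (ψ' j)| ≤ ρ' j * B ^ (wt j)) →
    (∀ v : σ → ℝ, (∀ j, |v j| ≤ ρ j * τ' ^ (wt j)) →
      eval (fun i => eval v (φ i)) (ψ' i₁) ∈ Win ∧
      ∀ j, j ≠ i₁ → |eval (fun i => eval v (φ i)) (ψ' j)| ≤ ρ' j * (B * τ') ^ (wt j)) →
    0 < B → 0 < τ' → τ' ≤ θ → 0 < τ → τ ≤ θ → θ ≤ 1 →
    (∀ s, s < M → B * τ' ≤ τs s ∧ τs s ≤ B) →
    ∀ v : σ → ℝ, (∀ j, |v j| ≤ ρ j * θ ^ (wt j)) →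
      |eval (fun i => eval v (φ i)) (lab wt k φ φ' G0 GM) -
        eval (fun i => eval v (φ i)) (lab (Function.update wt i₁ 0) k ψ ψ' (H 0) (H M))| ≤
      C * (δ0 * θ ^ (k + 1) + δM * (θ / τ) ^ k +
        θ ^ (k + 1) * ∑ s ∈ range M, δ s * (B / τs s) ^ k +
        (θ / τ') ^ k * ∑ s ∈ range M, δ s * (B * τ' / τs s) ^ (k + 1)) := by
  obtain ⟨D, hDdef⟩ : ∃ D : ℕ, D = W * (K * L) + W * (K * L * (L * L)) := ⟨_, rfl⟩
  have hD1 : W * (K * L) ≤ D := by rw [hDdef]; exact Nat.le_add_right _ _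
  have hD2 : W * (K * L * (L * L)) ≤ D := by rw [hDdef]; exact Nat.le_add_left _ _
  obtain ⟨Ch, hCh, hch⟩ := head_bound (σ := σ) D k
  obtain ⟨Ct, hCt, hct⟩ := tail_bound (σ := σ) D k
  refine ⟨Ct + Ch + 2 * (Ct * Ch), by positivity, ?_⟩
  intro wt i₁ φ φ' ψ ψ' G0 GM H M ρ ρ' Win δ0 δM B θ τ τ' δ τs hW hφ hψ hψ' hG0 hGM hH hinv hinv'
    h0 hM hstep hbox hbox' hB hτ'0 hτ'θ hτ hτθ hθ hτs₀ v hv
  have hτs : ∀ s, s < M → 0 < τs s ∧ τs s ≤ B := fun s hs =>
    ⟨lt_of_lt_of_le (mul_pos hB hτ'0) (hτs₀ s hs).1, (hτs₀ s hs).2⟩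
  have hθ0 : 0 < θ := lt_of_lt_of_le hτ hτθ
  -- the natural box lies in the unit box
  have hρ : ∀ j, 0 ≤ ρ j := by
    intro j
    have h1 : 0 ≤ ρ j * θ ^ (wt j) := (abs_nonneg _).trans (hv j)
    exact nonneg_of_mul_nonneg_left h1 (pow_pos hθ0 _)
  obtain ⟨w', hw'⟩ : ∃ w' : σ → ℕ, w' = Function.update wt i₁ 0 := ⟨_, rfl⟩
  rw [← hw']
  have hw'1 : w' i₁ = 0 := by rw [hw']; exact Function.update_self _ _ _
  have hw'2 : ∀ j, j ≠ i₁ → w' j = wt j := fun j hj => by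
    rw [hw']; exact Function.update_of_ne hj _ _
  have hW' : ∀ j, w' j ≤ W := by
    intro j
    by_cases hj : j = i₁
    · rw [hj, hw'1]; exact Nat.zero_le _
    · rw [hw'2 j hj]; exact hW j
  obtain ⟨χ, hχdef⟩ : ∃ χ : σ → MvPolynomial σ ℝ, χ = fun i => aeval φ (ψ' i) := ⟨_, rfl⟩
  have hχe : ∀ u : σ → ℝ, (fun i => eval u (χ i)) =
      fun i => eval (fun j => eval u (φ j)) (ψ' i) := by
    intro u
    funext i
    rw [hχdef]
    exact eval_aeval _ _ _
  have hχdeg : ∀ i, (χ i).totalDegree ≤ L * L := by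
    intro i
    rw [hχdef]
    exact totalDegree_aeval hφ (hψ' i)
  -- the three polynomials
  obtain ⟨A, hA⟩ : ∃ A : MvPolynomial σ ℝ, A = aeval φ (G0 - H 0) := ⟨_, rfl⟩
  obtain ⟨Bm, hBm⟩ : ∃ Bm : MvPolynomial σ ℝ, Bm = aeval φ (GM - H M) := ⟨_, rfl⟩
  obtain ⟨Q, hQ⟩ : ∃ Q : MvPolynomial σ ℝ, Q = aeval ψ (H M - H 0) := ⟨_, rfl⟩
  obtain ⟨R, hR⟩ : ∃ R : MvPolynomial σ ℝ, R = aeval χ (tr w' k Q) := ⟨_, rfl⟩
  obtain ⟨U, hU⟩ : ∃ U : MvPolynomial σ ℝ, U = aeval χ (Q - tr w' k Q) := ⟨_, rfl⟩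
  have hAdeg : A.totalDegree ≤ K * L := by
    rw [hA]
    exact totalDegree_aeval hφ ((totalDegree_sub _ _).trans (max_le hG0 (hH 0 (Nat.zero_le _))))
  have hBdeg : Bm.totalDegree ≤ K * L := by
    rw [hBm]
    exact totalDegree_aeval hφ ((totalDegree_sub _ _).trans (max_le hGM (hH M le_rfl)))
  have hQdeg : Q.totalDegree ≤ K * L := by
    rw [hQ]
    exact totalDegree_aeval hψ ((totalDegree_sub _ _).trans (max_le (hH M le_rfl)
      (hH 0 (Nat.zero_le _))))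
  have hRdeg : R.totalDegree ≤ K * L * (L * L) := by
    rw [hR]
    exact totalDegree_aeval hχdeg ((totalDegree_tr _ _ _).trans hQdeg)
  have hUdeg : U.totalDegree ≤ K * L * (L * L) := by
    rw [hU]
    exact totalDegree_aeval hχdeg ((totalDegree_sub _ _).trans (max_le hQdeg
      ((totalDegree_tr _ _ _).trans hQdeg)))
  -- the difference of the polynomials of the line in the chart of the point
  have hcomp : aeval φ (H M - H 0) = aeval χ Q := by
    rw [hQ, MvPolynomial.comp_aeval_apply (f := ψ) (aeval χ) (H M - H 0)]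
    have h1 : (fun i => aeval χ (ψ i)) = φ := by
      funext i
      have h2 : aeval φ (aeval ψ' (ψ i)) = aeval χ (ψ i) := by
        rw [hχdef]
        exact MvPolynomial.comp_aeval_apply (f := ψ') (aeval φ) (ψ i)
      rw [← h2, hinv' i, aeval_X]
    rw [h1]
  -- the identity
  have hid : eval (fun i => eval v (φ i)) (lab wt k φ φ' G0 GM) -
      eval (fun i => eval v (φ i)) (lab w' k ψ ψ' (H 0) (H M)) =
      (eval v A - eval v (tr wt k A)) + eval v (tr wt k Bm) -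
        (eval v R - eval v (tr wt k R)) + eval v (tr wt k U) := by
    rw [eval_lab, eval_lab]
    have h1 : (fun i => eval (fun j => eval v (φ j)) (φ' i)) = v := by
      funext i
      rw [← eval_aeval, hinv i, eval_X]
    rw [h1, ← hQ, ← hχe v, ← eval_aeval v χ, ← hR]
    have h2 : aeval φ (GM - G0) = Bm + aeval χ Q - A := by
      rw [hBm, hA, ← hcomp, ← map_add, ← map_sub]
      congr 1
      ring
    have h3 : tr wt k (aeval χ Q) = tr wt k R + tr wt k U := by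
      rw [hR, hU, ← tr_add, ← map_add]
      congr 2
      ring
    have h4 : eval v A = eval (fun i => eval v (φ i)) G0 -
        eval (fun i => eval v (φ i)) (H 0) := by
      rw [hA, eval_aeval, map_sub]
    rw [h2, tr_sub, tr_add, h3, map_sub, map_add, map_add, h4]
    ring
  rw [hid]
  -- first term
  have hb1 : |eval v A - eval v (tr wt k A)| ≤ Ct * (δ0 * θ ^ (k + 1)) := by
    refine hct W (K * L) hD1 wt hW (fun j => {x | |x| ≤ ρ j}) ρ A δ0 θ hAdeg hθ0 hθ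
      (fun u hu₀ hu => ?_) v (fun j hj => ?_) (fun j _ => hv j)
    · rw [hA, eval_aeval, map_sub]
      refine h0 u fun j => ?_
      by_cases hj : wt j = 0
      · exact hu₀ j hj
      · exact hu j hj
    · have := hv j
      rw [hj, pow_zero, mul_one] at this
      exact this
  -- second term
  have hb2 : |eval v (tr wt k Bm)| ≤ Ch * (δM * (θ / τ) ^ k) := by
    refine hch W (K * L) hD1 wt hW (fun j => {x | |x| ≤ ρ j}) (fun j => ρ j * τ ^ (wt j)) Bm δM
      (θ / τ) hBdeg ((one_le_div₀ hτ).2 hτθ) (fun u hu₀ hu => ?_) v (fun j hj => ?_)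
      (fun j _ => ?_)
    · rw [hBm, eval_aeval, map_sub]
      refine hM u fun j => ?_
      by_cases hj : wt j = 0
      · rw [hj, pow_zero, mul_one]
        exact hu₀ j hj
      · exact hu j hj
    · have := hv j
      rw [hj, pow_zero, mul_one] at this
      exact this
    · show |v j| ≤ ρ j * τ ^ (wt j) * (θ / τ) ^ (wt j)
      rw [mul_assoc, ← mul_pow, mul_div_cancel₀ _ hτ.ne']
      exact hv j
  -- third term
  have hR1 : ∀ u : σ → ℝ, (∀ j, |u j| ≤ ρ j) →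
      |eval u R| ≤ Ch * ∑ s ∈ range M, δ s * (B / τs s) ^ k := by
    intro u hu
    have h1 : Q = ∑ s ∈ range M, aeval ψ (H (s + 1) - H s) := by
      rw [hQ, ← map_sum, Finset.sum_range_sub]
    rw [hR, eval_aeval, hχe u, h1, tr_sum, map_sum, Finset.mul_sum]
    refine (Finset.abs_sum_le_sum_abs _ _).trans (Finset.sum_le_sum fun s hs => ?_)
    have hsM : s < M := Finset.mem_range.1 hs
    obtain ⟨hτ1, hτ2⟩ := hτs s hsM
    obtain ⟨hb, hb'⟩ := hbox u hu
    refine hch W (K * L) hD1 w' hW' (fun j => if j = i₁ then Win else {x | |x| ≤ ρ' j})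
      (fun j => ρ' j * τs s ^ (wt j)) _ (δ s) (B / τs s)
      (totalDegree_aeval hψ ((totalDegree_sub _ _).trans (max_le (hH (s + 1) hsM)
        (hH s hsM.le)))) ((one_le_div₀ hτ1).2 hτ2) (fun z hz₀ hz => ?_) _ (fun j hj => ?_)
      (fun j hj => ?_)
    · rw [eval_aeval, map_sub]
      refine hstep s hsM z ?_ fun j hj => ?_
      · have h2 := hz₀ i₁ hw'1
        rw [if_pos rfl] at h2
        exact h2
      · by_cases hj0 : wt j = 0
        · have h2 := hz₀ j (by rw [hw'2 j hj]; exact hj0)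
          rw [if_neg hj] at h2
          rw [hj0, pow_zero, mul_one]
          exact h2
        · exact hz j (by rw [hw'2 j hj]; exact hj0)
    · by_cases hj1 : j = i₁
      · rw [if_pos hj1, hj1]
        exact hb
      · rw [if_neg hj1]
        have h2 := hb' j hj1
        rw [hw'2 j hj1] at hj
        rw [hj, pow_zero, mul_one] at h2
        exact h2
    · have hj1 : j ≠ i₁ := fun h => hj (by rw [h]; exact hw'1)
      show |eval (fun i => eval u (φ i)) (ψ' j)| ≤ ρ' j * τs s ^ (wt j) * (B / τs s) ^ (w' j)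
      rw [hw'2 j hj1, mul_assoc, ← mul_pow, mul_div_cancel₀ _ hτ1.ne']
      exact hb' j hj1
  have hb3 : |eval v R - eval v (tr wt k R)| ≤
      Ct * (Ch * (∑ s ∈ range M, δ s * (B / τs s) ^ k) * θ ^ (k + 1)) := by
    refine hct W (K * L * (L * L)) hD2 wt hW (fun j => {x | |x| ≤ ρ j}) ρ R _ θ hRdeg hθ0 hθ
      (fun u hu₀ hu => ?_) v (fun j hj => ?_) (fun j _ => hv j)
    · refine hR1 u fun j => ?_
      by_cases hj : wt j = 0
      · exact hu₀ j hj
      · exact hu j hj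
    · have := hv j
      rw [hj, pow_zero, mul_one] at this
      exact this
  -- fourth term
  have hU1 : ∀ u : σ → ℝ, (∀ j, |u j| ≤ ρ j * τ' ^ (wt j)) →
      |eval u U| ≤ Ct * ∑ s ∈ range M, δ s * (B * τ' / τs s) ^ (k + 1) := by
    intro u hu
    have h1 : Q = ∑ s ∈ range M, aeval ψ (H (s + 1) - H s) := by
      rw [hQ, ← map_sum, Finset.sum_range_sub]
    have h2 : Q - tr w' k Q = ∑ s ∈ range M, (aeval ψ (H (s + 1) - H s) -
        tr w' k (aeval ψ (H (s + 1) - H s))) := by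
      rw [Finset.sum_sub_distrib, ← tr_sum, ← h1]
    rw [hU, eval_aeval, hχe u, h2, map_sum, Finset.mul_sum]
    refine (Finset.abs_sum_le_sum_abs _ _).trans (Finset.sum_le_sum fun s hs => ?_)
    have hsM : s < M := Finset.mem_range.1 hs
    obtain ⟨hτ1, hτ2⟩ := hτs s hsM
    obtain ⟨hb, hb'⟩ := hbox' u hu
    rw [map_sub]
    refine hct W (K * L) hD1 w' hW' (fun j => if j = i₁ then Win else {x | |x| ≤ ρ' j})
      (fun j => ρ' j * τs s ^ (wt j)) _ (δ s) (B * τ' / τs s)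
      (totalDegree_aeval hψ ((totalDegree_sub _ _).trans (max_le (hH (s + 1) hsM)
        (hH s hsM.le)))) (div_pos (mul_pos hB hτ'0) hτ1)
      ((div_le_one hτ1).2 (hτs₀ s hsM).1) (fun z hz₀ hz => ?_) _ (fun j hj => ?_)
      (fun j hj => ?_)
    · rw [eval_aeval, map_sub]
      refine hstep s hsM z ?_ fun j hj => ?_
      · have h2 := hz₀ i₁ hw'1
        rw [if_pos rfl] at h2
        exact h2
      · by_cases hj0 : wt j = 0
        · have h2 := hz₀ j (by rw [hw'2 j hj]; exact hj0)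
          rw [if_neg hj] at h2
          rw [hj0, pow_zero, mul_one]
          exact h2
        · exact hz j (by rw [hw'2 j hj]; exact hj0)
    · by_cases hj1 : j = i₁
      · rw [if_pos hj1, hj1]
        exact hb
      · rw [if_neg hj1]
        have h2 := hb' j hj1
        rw [hw'2 j hj1] at hj
        rw [hj, pow_zero, mul_one] at h2
        exact h2
    · have hj1 : j ≠ i₁ := fun h => hj (by rw [h]; exact hw'1)
      show |eval (fun i => eval u (φ i)) (ψ' j)| ≤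
        ρ' j * τs s ^ (wt j) * (B * τ' / τs s) ^ (w' j)
      rw [hw'2 j hj1, mul_assoc, ← mul_pow, mul_div_cancel₀ _ hτ1.ne']
      exact hb' j hj1
  have hb4 : |eval v (tr wt k U)| ≤
      Ch * (Ct * (∑ s ∈ range M, δ s * (B * τ' / τs s) ^ (k + 1)) * (θ / τ') ^ k) := by
    refine hch W (K * L * (L * L)) hD2 wt hW (fun j => {x | |x| ≤ ρ j})
      (fun j => ρ j * τ' ^ (wt j)) U _ (θ / τ') hUdeg ((one_le_div₀ hτ'0).2 hτ'θ)
      (fun u hu₀ hu => ?_) v (fun j hj => ?_) (fun j _ => ?_)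
    · refine hU1 u fun j => ?_
      by_cases hj : wt j = 0
      · rw [hj, pow_zero, mul_one]
        exact hu₀ j hj
      · exact hu j hj
    · have := hv j
      rw [hj, pow_zero, mul_one] at this
      exact this
    · show |v j| ≤ ρ j * τ' ^ (wt j) * (θ / τ') ^ (wt j)
      rw [mul_assoc, ← mul_pow, mul_div_cancel₀ _ hτ'0.ne']
      exact hv j
  obtain ⟨d, hd⟩ : ∃ d : ℝ, d = (θ / τ') ^ k *
      ∑ s ∈ range M, δ s * (B * τ' / τs s) ^ (k + 1) := ⟨_, rfl⟩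
  have hb4' : |eval v (tr wt k U)| ≤ Ct * Ch * d := by
    refine hb4.trans (le_of_eq ?_)
    rw [hd]
    ring
  obtain ⟨a, ha⟩ : ∃ a : ℝ, a = δ0 * θ ^ (k + 1) := ⟨_, rfl⟩
  obtain ⟨b, hb⟩ : ∃ b : ℝ, b = δM * (θ / τ) ^ k := ⟨_, rfl⟩
  obtain ⟨c, hc⟩ : ∃ c : ℝ, c = θ ^ (k + 1) * ∑ s ∈ range M, δ s * (B / τs s) ^ k := ⟨_, rfl⟩
  have hb3' : |eval v R - eval v (tr wt k R)| ≤ Ct * Ch * c := by
    refine hb3.trans (le_of_eq ?_)
    rw [hc]
    ring
  rw [← ha] at hb1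
  rw [← hb] at hb2
  rw [← ha, ← hb, ← hc, ← hd]
  have ha0 : 0 ≤ a := nonneg_of_mul_nonneg_right ((abs_nonneg _).trans hb1) hCt
  have hb0 : 0 ≤ b := nonneg_of_mul_nonneg_right ((abs_nonneg _).trans hb2) hCh
  have hc0 : 0 ≤ c := nonneg_of_mul_nonneg_right ((abs_nonneg _).trans hb3') (mul_pos hCt hCh)
  have hd0 : 0 ≤ d := nonneg_of_mul_nonneg_right ((abs_nonneg _).trans hb4') (mul_pos hCt hCh)
  have h5 := abs_add_le (eval v A - eval v (tr wt k A)) (eval v (tr wt k Bm))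
  have h6 := abs_sub ((eval v A - eval v (tr wt k A)) + eval v (tr wt k Bm))
    (eval v R - eval v (tr wt k R))
  have h7 := abs_add_le ((eval v A - eval v (tr wt k A)) + eval v (tr wt k Bm) -
    (eval v R - eval v (tr wt k R))) (eval v (tr wt k U))
  have e1 : 0 ≤ (Ch + 2 * (Ct * Ch)) * a := by positivity
  have e2 : 0 ≤ (Ct + 2 * (Ct * Ch)) * b := by positivity
  have e3 : 0 ≤ (Ct + Ch + Ct * Ch) * c := by positivity
  have e4 : 0 ≤ (Ct + Ch + Ct * Ch) * d := by positivity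
  nlinarith [h5, h6, h7, hb1, hb2, hb3', hb4', e1, e2, e3, e4]

end Pool.GEN.LemC
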