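import Pool.Agent.H19.STAT.Sys

/-!
# NONW with countably many sets of constants

The constants of NONW depend on the slope `s` of the last coordinate. They are good for all the
slopes near `s`, so countably many sets of constants are enough for all the slopes.
-/

set_option autoImplicit false

namespace Pool.STAT

open Finset MvPolynomial
open Pool.Agent.H49.Ent Pool.Agent.H32.Dense Pool.STK Pool.KS3

/-- A system with the slopes `σ` is a system with the slopes `σ'` if they are near. -/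
theorem NDat.Ok.slope {D : NDat} {n K J z M : ℕ} {σ σ' : ℕ → ℝ} {κ C₁ : ℝ} {q : D.Ω → ℝ}
    (h : D.Ok n K J z M σ κ C₁ q) (h0 : σ' 0 = 1) (h1 : ∀ i, 1 ≤ σ' i)
    (hs : ∀ i ≤ n, |σ i - σ' i| * M ≤ 1) : D.Ok n K J z M σ' κ (C₁ + 1) q := by
  refine ⟨h.isLaw, h.top, h.T_lt, h.X_zero, h.time, h.c_wn, h.c_c, h.c_T, h.P_deg, h.P_tri,
    h.P_zero, h.R_deg, h.R_tri, h0, h1, fun k hk i hi => ?_, h.hgt, fun ω hω i h1 hi b hb => ?_,
    h.full⟩
  · have e1 : (D.g k i : ℝ) - σ' i * (k * z) =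
        (D.g k i - σ i * (k * z)) + (σ i - σ' i) * (k * z) := by ring
    rw [e1]
    refine (abs_add_le _ _).trans ?_
    have hz : (0 : ℝ) ≤ z := Nat.cast_nonneg z
    have hkM : (k : ℝ) ≤ M := by exact_mod_cast hk
    have h2 : |(σ i - σ' i) * (k * z)| ≤ 1 * z := by
      rw [abs_mul, abs_of_nonneg (by positivity : (0 : ℝ) ≤ k * z), ← mul_assoc]
      refine mul_le_mul_of_nonneg_right ?_ hz
      exact (mul_le_mul_of_nonneg_left hkM (abs_nonneg _)).trans (hs i hi)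
    have h3 := h.hom k hk i hi
    linarith
  · refine (h.line ω hω i h1 hi b hb).trans ?_
    refine div_le_div_of_nonneg_right ?_ (by positivity)
    refine Real.exp_le_exp.2 (mul_le_mul_of_nonneg_right (by linarith) (Nat.cast_nonneg z))

/-- **Countably many sets of constants for NONW.** -/
theorem nonw_cover (hN : NonwStmt) (n K A : ℕ) (d : ℕ → ℕ) (C₁ : ℝ) (hn : 1 ≤ n) (hd0 : d 0 = 1)
    (hd : ∀ i, 1 ≤ d i) (hC₁ : 1 ≤ C₁) :
    ∃ (v M K' : ℕ → ℕ) (C₆ κ : ℕ → ℝ) (z₀ : ℕ → ℕ), (∀ j, v j ≤ M j ∧ 0 < κ j) ∧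
    ∀ s : ℝ, (d n : ℝ) - 1 < s → s < d n → ∃ j, ∀ (J z : ℕ) (D : NDat) (q : D.Ω → ℝ),
      z₀ j ≤ z → D.Ok n K J z (M j) (Function.update (fun i => (d i : ℝ)) n s) (κ j) C₁ q →
      D.NewLab J z n (v j) (M j) A (K' j) (C₆ j) (1 / 2) q := by
  classical
  have h0 := fun s : {s : ℝ // (d n : ℝ) - 1 < s ∧ s < d n} =>
    hN n K A d (C₁ + 1) s.1 hn hd0 hd (by linarith) s.2.1 s.2.2
  choose v M K' C₆ κ z₀ hv hκ hS using h0
  obtain ⟨U, hU⟩ : ∃ U : {s : ℝ // (d n : ℝ) - 1 < s ∧ s < d n} → Set ℝ,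
      U = fun s => Metric.ball s.1 (1 / ((M s : ℝ) + 1)) := ⟨_, rfl⟩
  obtain ⟨T, hTc, hT⟩ := TopologicalSpace.isOpen_iUnion_countable U
    (fun s => by rw [hU]; exact Metric.isOpen_ball)
  have hmem : ∀ s : {s : ℝ // (d n : ℝ) - 1 < s ∧ s < d n}, ∃ r ∈ T, s.1 ∈ U r := by
    intro s
    have h1 : s.1 ∈ ⋃ i, U i := Set.mem_iUnion.2 ⟨s, by
      rw [hU]
      exact Metric.mem_ball_self (by positivity)⟩
    rw [← hT] at h1
    obtain ⟨r, hr, h2⟩ := Set.mem_iUnion₂.1 h1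
    exact ⟨r, hr, h2⟩
  have hne : T.Nonempty := by
    obtain ⟨r, hr, -⟩ := hmem ⟨(d n : ℝ) - 1 / 2, by linarith, by linarith⟩
    exact ⟨r, hr⟩
  obtain ⟨f, hf⟩ := hTc.exists_eq_range hne
  refine ⟨fun j => v (f j), fun j => M (f j), fun j => K' (f j), fun j => C₆ (f j),
    fun j => κ (f j), fun j => z₀ (f j), fun j => ⟨hv _, hκ _⟩, fun s h1 h2 => ?_⟩
  obtain ⟨r, hr, hsr⟩ := hmem ⟨s, h1, h2⟩
  rw [hf] at hr
  obtain ⟨j, rfl⟩ := hr
  refine ⟨j, fun J z D q hz hOk => hS (f j) J z D q hz ?_⟩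
  have hs1 : 1 ≤ s := by
    have := hOk.σ_ge n
    rw [Function.update_self] at this
    exact this
  have hdn : 2 ≤ d n := by
    have h3 : (1 : ℝ) < d n := lt_of_le_of_lt hs1 h2
    have h4 : 1 < d n := by exact_mod_cast h3
    omega
  have hdn' : (2 : ℝ) ≤ d n := by exact_mod_cast hdn
  refine hOk.slope ?_ (fun i => ?_) fun i hi => ?_
  · rw [Function.update_of_ne (by omega), hd0]
    exact Nat.cast_one
  · by_cases hi : i = n
    · rw [hi, Function.update_self]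
      linarith [(f j).2.1]
    · rw [Function.update_of_ne hi]
      exact_mod_cast hd i
  · by_cases hin : i = n
    · rw [hin, Function.update_self, Function.update_self]
      rw [hU] at hsr
      have h3 : |s - (f j).1| < 1 / ((M (f j) : ℝ) + 1) := by
        rw [← Real.dist_eq]
        exact Metric.mem_ball.1 hsr
      rw [lt_div_iff₀ (by positivity)] at h3
      have h4 : 0 ≤ |s - (f j).1| := abs_nonneg _
      nlinarith
    · rw [Function.update_of_ne hin, Function.update_of_ne hin, sub_self, abs_zero, zero_mul]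
      exact zero_le_one

end Pool.STAT
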